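import Mathlib
import Pool.Agent.Results.MP_a4c3d5_co.SmallTerms

/-!
# Weakly consecutive sequences: shifted coordinates and divisibility classes

A weakly consecutive sequence `σ` of length `k` is placed on the coordinates `t + 1, ..., t + k`.
In these coordinates almost all prime powers `q` have their multiples at the multiples of `q`.
-/

set_option autoImplicit false

namespace Pool.Agent.Q58.WCS

open Pool.Agent.Results.MP_a4c3d5_co.SmallTerms

/-- A weakly consecutive sequence of length `k` placed on the coordinates `t + 1, ..., t + k`. -/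
structure SW (k t : ℕ) (v : ℕ → ℕ) : Prop where
  bij : Set.BijOn v (Set.Icc (t + 1) (t + k)) (Set.Icc 1 k)
  cl : ∀ m, 1 ≤ m → m ≤ k → ∃ a, k % m + t < a ∧ a ≤ t + m ∧
    ∀ x, t + 1 ≤ x → x ≤ t + k → (m ∣ v x ↔ (m : ℤ) ∣ (x : ℤ) - a)
  one : v (t + 1) = 1 ∨ v (t + k) = 1

/-- The multiples of `q` are placed on the coordinates congruent to `a` modulo `q`. -/
def Cls (k t : ℕ) (v : ℕ → ℕ) (q : ℕ) (a : ℤ) : Prop :=
  ∀ x, t + 1 ≤ x → x ≤ t + k → (q ∣ v x ↔ (q : ℤ) ∣ (x : ℤ) - a)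

lemma Cls.congr {k t : ℕ} {v : ℕ → ℕ} {q : ℕ} {a b : ℤ} (h : Cls k t v q a)
    (hab : (q : ℤ) ∣ a - b) : Cls k t v q b := by
  intro x h1 h2
  rw [h x h1 h2]
  constructor
  · intro h3
    have : (x : ℤ) - b = (x - a) + (a - b) := by ring
    rw [this]
    exact dvd_add h3 hab
  · intro h3
    have : (x : ℤ) - a = (x - b) - (a - b) := by ring
    rw [this]
    exact dvd_sub h3 hab

lemma SW.of_isWCS {k : ℕ} {σ : ℕ → ℕ} (h : IsWCS k σ) (hk : 1 ≤ k) (t : ℕ) :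
    SW k t (fun x => σ (x - t)) := by
  refine ⟨⟨?_, ?_, ?_⟩, ?_, ?_⟩
  · intro x hx
    have h1 := hx.1
    have h2 := hx.2
    exact h.bounds (by omega) (by omega)
  · intro x hx y hy hxy
    have h1 := hx.1
    have h2 := hx.2
    have h3 := hy.1
    have h4 := hy.2
    have h5 : x - t = y - t := h.1.injOn (show x - t ∈ Set.Icc 1 k from ⟨by omega, by omega⟩)
      (show y - t ∈ Set.Icc 1 k from ⟨by omega, by omega⟩) hxy
    omega
  · intro w hw
    obtain ⟨i, hi, rfl⟩ := h.1.surjOn hw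
    have h1 := hi.1
    have h2 := hi.2
    refine ⟨i + t, ⟨by omega, by omega⟩, ?_⟩
    simp
  · intro m hm hmk
    obtain ⟨r, hr1, hr2, hr3, hr4⟩ := h.class hm hmk
    refine ⟨r + t, by omega, by omega, ?_⟩
    intro x hx1 hx2
    rw [hr4 (x - t) (by omega) (by omega)]
    have h1 : (x : ℤ) - ((r + t : ℕ) : ℤ) = ((x - t : ℕ) : ℤ) - (r : ℤ) := by
      push_cast [Nat.cast_sub (show t ≤ x by omega)]
      ring
    rw [h1]
    constructor
    · intro h2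
      exact (Nat.modEq_iff_dvd.1 h2.symm)
    · intro h2
      exact (Nat.modEq_iff_dvd.2 h2).symm
  · have h1 := h.one hk
    show σ (t + 1 - t) = 1 ∨ σ (t + k - t) = 1
    have h2 : t + 1 - t = 1 := by omega
    have h3 : t + k - t = k := by omega
    rw [h2, h3]
    exact h1

variable {k t : ℕ} {v : ℕ → ℕ}

lemma SW.bounds (h : SW k t v) {x : ℕ} (h1 : t + 1 ≤ x) (h2 : x ≤ t + k) :
    1 ≤ v x ∧ v x ≤ k := h.bij.mapsTo ⟨h1, h2⟩

lemma SW.inj (h : SW k t v) {x y : ℕ} (h1 : t + 1 ≤ x) (h2 : x ≤ t + k)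
    (h3 : t + 1 ≤ y) (h4 : y ≤ t + k) (hxy : v x = v y) : x = y :=
  h.bij.injOn ⟨h1, h2⟩ ⟨h3, h4⟩ hxy

lemma SW.surj (h : SW k t v) {n : ℕ} (h1 : 1 ≤ n) (h2 : n ≤ k) :
    ∃ x, t + 1 ≤ x ∧ x ≤ t + k ∧ v x = n := by
  obtain ⟨x, hx, rfl⟩ := h.bij.surjOn ⟨h1, h2⟩
  exact ⟨x, hx.1, hx.2, rfl⟩

/-- A number `m > k / 2` occurs as a value at a unique place, close to the centre. -/
lemma SW.big (h : SW k t v) {m : ℕ} (h1 : m ≤ k) (h2 : k < 2 * m) :
    ∃ x, k + t < m + x ∧ x ≤ t + m ∧ v x = m ∧ Cls k t v m x := by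
  obtain ⟨a, ha1, ha2, ha3⟩ := h.cl m (by omega) h1
  have h3 : k % m = k - m := by
    rw [Nat.mod_eq_sub_mod h1, Nat.mod_eq_of_lt (by omega)]
  rw [h3] at ha1
  refine ⟨a, by omega, ha2, ?_, ha3⟩
  have h4 := h.bounds (x := a) (by omega) (by omega)
  have h5 : m ∣ v a := (ha3 a (by omega) (by omega)).2 (by simp)
  obtain ⟨c, hc⟩ := h5
  have h6 : c < 2 := by
    by_contra hcon
    push Not at hcon
    have : m * 2 ≤ m * c := Nat.mul_le_mul_left _ hcon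
    omega
  have h7 : 0 < c := by
    rcases Nat.eq_zero_or_pos c with h8 | h8
    · rw [h8] at hc
      omega
    · exact h8
  have h8 : c = 1 := by omega
  rw [hc, h8, Nat.mul_one]

/-- The classes of the prime powers: all of them are `0`, except for the free prime powers and the
exchanged twin primes. -/
structure Std (k t : ℕ) (v : ℕ → ℕ) (D : ℕ → Prop) : Prop where
  tw : ∀ q, D q → q.Prime ∧ (q + 2).Prime ∧ q + 2 ≤ k ∧ k / 2 ≤ q ∧ Cls k t v q 2 ∧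
    Cls k t v (q + 2) (-2)
  cls : ∀ p c, p.Prime → 1 ≤ c → p ^ c ≤ k →
    Cls k t v (p ^ c) 0 ∨ (k < p ^ c + p ^ (c - 1) ∧ Cls k t v (p ^ c) ((p ^ (c - 1) : ℕ) : ℤ)) ∨
    (c = 1 ∧ (D p ∨ ∃ q, p = q + 2 ∧ D q))
  typ : (t = 0 ∧ ∀ q, D q → q = k / 2) ∨ (t = 1 ∧ (k + 1).Prime ∧ ∀ q, D q → q = k / 2) ∨
    (t = 2 ∧ ∃ P, k + 1 = 2 * P ∧ P.Prime ∧ (P + 2).Prime ∧ (2 * P + 1).Prime ∧ D P)

end Pool.Agent.Q58.WCS
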