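import Mathlib
import Pool.Agent.Q58.WCS.Basic

/-!
# Weakly consecutive sequences: a verified search for short sequences
-/

set_option autoImplicit false

namespace Pool.Agent.Q58.WCS

open Pool.Agent.Results.MP_a4c3d5_co.SmallTerms

/-- Multiply the entries at the positions congruent to `r` modulo `q` by `p`. -/
def upd (q r p : ℕ) : ℕ → List ℕ → List ℕ
  | _, [] => []
  | i, x :: s => (bif Nat.beq (i % q) (r % q) then x * p else x) :: upd q r p (i + 1) s

/-- The number of multiples of `d`. -/
def cnt (d : ℕ) : List ℕ → ℕ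
  | [] => 0
  | x :: s => (bif Nat.beq (x % d) 0 then 1 else 0) + cnt d s

/-- All entries are at most `k`. -/
def leAll (k : ℕ) : List ℕ → Bool
  | [] => true
  | x :: s => Nat.ble x k && leAll k s

/-- There are at most `k / (p j)` multiples of `p j` for all `j` in a range. -/
def cntOk (k p : ℕ) (s : List ℕ) : ℕ → Bool
  | 0 => true
  | j + 1 => Nat.ble (cnt (p * (j + 1)) s) (k / (p * (j + 1))) && cntOk k p s j

/-- The pruning condition. -/
def ok (k p : ℕ) (s : List ℕ) : Bool := leAll k s && cntOk k p s (k / p)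

/-- Choose the class of the prime power `q` of the prime `p`. -/
def extend (k q p : ℕ) (s : List ℕ) : List (List ℕ) :=
  ((List.range' (k % q + 1) (q - k % q)).map (fun r => upd q r p 1 s)).filter (ok k p)

/-- Choose the classes of the prime powers in the list. -/
def stage (k : ℕ) : List (ℕ × ℕ) → List (List ℕ)
  | [] => [List.replicate k 1]
  | (q, p) :: L => (stage k L).flatMap (extend k q p)

/-- The prime powers up to `23`, with their primes. -/
def pps : List (ℕ × ℕ) :=
  [(23, 23), (19, 19), (17, 17), (16, 2), (13, 13), (11, 11), (9, 3), (8, 2), (7, 7), (5, 5),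
    (4, 2), (3, 3), (2, 2)]

/-- The prime powers up to `k`. -/
def ppsk (k : ℕ) : List (ℕ × ℕ) := pps.filter (fun e => Nat.ble e.1 k)

/-- A list containing all weakly consecutive sequences of length `k ≤ 23`. -/
def search (k : ℕ) : List (List ℕ) := stage k (ppsk k)

/-- The part of `v` seen by the prime powers in the list. -/
def part : List (ℕ × ℕ) → ℕ → ℕ
  | [], _ => 1
  | (q, p) :: L, v => bif Nat.beq (v % q) 0 then part L v * p else part L v

lemma upd_map (q r p n : ℕ) (g : ℕ → ℕ) : ∀ a, upd q r p a ((List.range' a n).map g) =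
    (List.range' a n).map (fun i => bif Nat.beq (i % q) (r % q) then g i * p else g i) := by
  induction n with
  | zero => intro a; simp [upd]
  | succ n ih =>
    intro a
    rw [List.range'_succ, List.map_cons, List.map_cons, upd, ih]

lemma cnt_map (d n : ℕ) (g : ℕ → ℕ) : ∀ a, cnt d ((List.range' a n).map g) =
    ((Finset.Ico a (a + n)).filter (fun i => d ∣ g i)).card := by
  induction n with
  | zero => intro a; simp [cnt]
  | succ n ih =>
    intro a
    have h1 : Finset.Ico a (a + (n + 1)) = insert a (Finset.Ico (a + 1) (a + 1 + n)) := by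
      ext x
      simp only [Finset.mem_Ico, Finset.mem_insert]
      omega
    rw [List.range'_succ, List.map_cons, cnt, ih, h1, Finset.filter_insert]
    by_cases h : d ∣ g a
    · have h2 : Nat.beq (g a % d) 0 = true := by
        rw [Nat.beq_eq]
        exact Nat.mod_eq_zero_of_dvd h
      rw [h2, if_pos h, Finset.card_insert_of_notMem (by simp), cond_true, Nat.add_comm]
    · have h2 : Nat.beq (g a % d) 0 = false := by
        rw [Bool.eq_false_iff, Ne, Nat.beq_eq]
        exact fun h3 => h (Nat.dvd_of_mod_eq_zero h3)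
      rw [h2, if_neg h, cond_false, Nat.zero_add]

lemma leAll_of (k : ℕ) (s : List ℕ) (h : ∀ x ∈ s, x ≤ k) : leAll k s = true := by
  induction s with
  | nil => rfl
  | cons x s ih =>
    rw [leAll, Bool.and_eq_true, Nat.ble_eq]
    exact ⟨h x (by simp), ih (fun y hy => h y (by simp [hy]))⟩

lemma cntOk_of (k p : ℕ) (s : List ℕ) (h : ∀ d, 0 < d → cnt (p * d) s ≤ k / (p * d)) :
    ∀ n, cntOk k p s n = true := by
  intro n
  induction n with
  | zero => rfl
  | succ n ih =>
    rw [cntOk, Bool.and_eq_true, Nat.ble_eq]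
    exact ⟨h _ (by omega), ih⟩

theorem mem_stage {k : ℕ} {σ : ℕ → ℕ} (h : IsWCS k σ) (L : List (ℕ × ℕ))
    (hL : ∀ e ∈ L, 1 ≤ e.1 ∧ e.1 ≤ k ∧ 1 ≤ e.2) (hd : ∀ v, 1 ≤ v → v ≤ k → part L v ∣ v) :
    (List.range' 1 k).map (fun i => part L (σ i)) ∈ stage k L := by
  induction L with
  | nil =>
    rw [stage, List.mem_singleton]
    simp [part]
  | cons e L ih =>
    obtain ⟨q, p⟩ := e
    obtain ⟨hq1, hq2, hp⟩ := hL (q, p) (by simp)
    have hdL : ∀ v, 1 ≤ v → v ≤ k → part L v ∣ v := by
      intro v h1 h2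
      refine dvd_trans ?_ (hd v h1 h2)
      rw [part]
      cases Nat.beq (v % q) 0
      · simp
      · simp
    have ih' := ih (fun e he => hL e (by simp [he])) hdL
    obtain ⟨r, hr1, hr2, hr3, hr4⟩ := h.class hq1 hq2
    rw [stage, List.mem_flatMap]
    refine ⟨_, ih', ?_⟩
    rw [extend, List.mem_filter]
    have heq : upd q r p 1 ((List.range' 1 k).map (fun i => part L (σ i))) =
        (List.range' 1 k).map (fun i => part ((q, p) :: L) (σ i)) := by
      rw [upd_map]
      apply List.map_congr_left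
      intro i hi
      rw [List.mem_range'_1] at hi
      have h1 := hr4 i hi.1 (by omega)
      simp only [part]
      have h2 : Nat.beq (i % q) (r % q) = Nat.beq (σ i % q) 0 := by
        rw [Bool.eq_iff_iff, Nat.beq_eq, Nat.beq_eq]
        constructor
        · intro h3
          exact Nat.mod_eq_zero_of_dvd (h1.2 h3)
        · intro h3
          exact h1.1 (Nat.dvd_of_mod_eq_zero h3)
      rw [h2]
    constructor
    · rw [List.mem_map]
      refine ⟨r, ?_, heq⟩
      rw [List.mem_range'_1]
      have h1 : k % q < q := Nat.mod_lt k hq1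
      have h2 : k % q < r := hr3
      omega
    · rw [ok, Bool.and_eq_true]
      constructor
      · apply leAll_of
        intro x hx
        rw [List.mem_map] at hx
        obtain ⟨i, hi, rfl⟩ := hx
        rw [List.mem_range'_1] at hi
        have h1 := h.bounds hi.1 (by omega)
        exact (Nat.le_of_dvd h1.1 (hd _ h1.1 h1.2)).trans h1.2
      · apply cntOk_of
        intro d hd0
        rw [cnt_map]
        apply h.card_le
        · intro i hi
          rw [Finset.mem_filter, Finset.mem_Ico] at hi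
          omega
        · intro i hi
          rw [Finset.mem_filter, Finset.mem_Ico] at hi
          have h1 := h.bounds hi.1.1 (by omega)
          exact hi.2.trans (hd _ h1.1 h1.2)

lemma part_eq : ∀ k < 24, ∀ v < 24, 1 ≤ v → v ≤ k → part (ppsk k) v = v := by decide +kernel

lemma ppsk_ok : ∀ k < 24, ∀ e ∈ ppsk k, 1 ≤ e.1 ∧ e.1 ≤ k ∧ 1 ≤ e.2 := by decide +kernel

theorem mem_search {k : ℕ} {σ : ℕ → ℕ} (h : IsWCS k σ) (hk : k ≤ 23) :
    (List.range' 1 k).map σ ∈ search k := by
  have h1 := mem_stage h (ppsk k) (ppsk_ok k (by omega)) (by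
    intro v h1 h2
    rw [part_eq k (by omega) v (by omega) h1 h2])
  have h2 : (List.range' 1 k).map σ = (List.range' 1 k).map (fun i => part (ppsk k) (σ i)) := by
    apply List.map_congr_left
    intro i hi
    rw [List.mem_range'_1] at hi
    have h3 := h.bounds hi.1 (by omega)
    exact (part_eq k (by omega) _ (by omega) h3.1 h3.2).symm
  rw [h2]
  exact h1

/-- The primes up to `23`. -/
def pr23 (n : ℕ) : Prop := n ∈ [2, 3, 5, 7, 11, 13, 17, 19, 23]

instance (n : ℕ) : Decidable (pr23 n) := by
  unfold pr23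
  infer_instance

lemma pr23.prime {n : ℕ} (h : pr23 n) : n.Prime := by
  simp only [pr23, List.mem_cons, List.not_mem_nil, or_false] at h
  rcases h with rfl | rfl | rfl | rfl | rfl | rfl | rfl | rfl | rfl <;> norm_num

/-- The class condition, for lists: the multiples of `q` are placed on the coordinates congruent
to `-b` modulo `q`. -/
def clsP (k t : ℕ) (l : List ℕ) (q b : ℕ) : Prop :=
  ∀ j < k, (l.getD j 0 % q = 0 ↔ (j + 1 + t + b) % q = 0)

instance (k t : ℕ) (l : List ℕ) (q b : ℕ) : Decidable (clsP k t l q b) := by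
  unfold clsP
  infer_instance

/-- The exchanged twins, for lists. -/
def dP (k t : ℕ) (l : List ℕ) (q : ℕ) : Prop :=
  pr23 q ∧ pr23 (q + 2) ∧ q + 2 ≤ k ∧ k / 2 ≤ q ∧ clsP k t l q (q - 2) ∧ clsP k t l (q + 2) 2

instance (k t : ℕ) (l : List ℕ) (q : ℕ) : Decidable (dP k t l q) := by
  unfold dP
  infer_instance

/-- The structure, for lists. -/
def stdP (k t : ℕ) (l : List ℕ) : Prop :=
  (∀ e ∈ ppsk k, clsP k t l e.1 0 ∨ (k < e.1 + e.1 / e.2 ∧ clsP k t l e.1 (e.1 - e.1 / e.2)) ∨
    (e.1 = e.2 ∧ (dP k t l e.1 ∨ (2 ≤ e.1 ∧ dP k t l (e.1 - 2))))) ∧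
  ((t = 0 ∧ ∀ q < k, dP k t l q → q = k / 2) ∨
    (t = 1 ∧ pr23 (k + 1) ∧ ∀ q < k, dP k t l q → q = k / 2) ∨
    (t = 2 ∧ k + 1 = 2 * ((k + 1) / 2) ∧ pr23 ((k + 1) / 2) ∧ pr23 ((k + 1) / 2 + 2) ∧
      pr23 (2 * ((k + 1) / 2) + 1) ∧ dP k t l ((k + 1) / 2)))

instance (k t : ℕ) (l : List ℕ) : Decidable (stdP k t l) := by
  unfold stdP
  infer_instance

lemma search_std : ∀ k < 24, 12 ≤ k → ∀ l ∈ search k,
    (∃ t < 3, stdP k t l) ∨ (∃ t < 3, stdP k t l.reverse) := by decide +kernel

end Pool.Agent.Q58.WCS
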