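import Mathlib
import Pool.Agent.Q58.WCS.Basic

/-!
# Weakly consecutive sequences: the doubling step

The even entries of a weakly consecutive sequence of length `k`, divided by two, form a weakly
consecutive sequence of length `f = k / 2`.  We show how the structure of the latter determines the
structure of the former.
-/

set_option autoImplicit false

namespace Pool.Agent.Q58.WCS

/-- `w` is the sequence of the halves of the even values of `v`. -/
structure Slice (k f t t' : ℕ) (v w : ℕ → ℕ) : Prop where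
  hf : 12 ≤ f
  hk : k = 2 * f ∨ k = 2 * f + 1
  ht : t = 2 * t' ∨ (t = 2 * t' + 1 ∧ k = 2 * f)
  hv : SW k t v
  ev : ∀ x, t + 1 ≤ x → x ≤ t + k → (2 ∣ v x ↔ 2 ∣ x)
  dbl : ∀ y, t' + 1 ≤ y → y ≤ t' + f → v (2 * y) = 2 * w y

variable {k f t t' : ℕ} {v w : ℕ → ℕ} {D : ℕ → Prop}

lemma Slice.odd (h : Slice k f t t' v w) {q : ℕ} (hq : q % 2 = 1) (hqf : q ≤ f) {a : ℤ}
    (hc : Cls f t' w q a) : Cls k t v q (2 * a) := by
  have hk := h.hk
  have ht := h.ht
  obtain ⟨a0, -, -, ha0⟩ := h.hv.cl q (by omega) (by omega)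
  have hq0 : (0 : ℤ) < q := by
    have : 0 < q := by omega
    exact_mod_cast this
  have h0 := Int.emod_nonneg (a - (t' + 1)) hq0.ne'
  have h1 := Int.emod_lt_of_pos (a - (t' + 1)) hq0
  obtain ⟨n, hn⟩ : ∃ n : ℕ, (n : ℤ) = (a - (t' + 1)) % q := ⟨_, Int.toNat_of_nonneg h0⟩
  have hnq : n < q := by
    rw [← hn] at h1
    exact_mod_cast h1
  have hya : (q : ℤ) ∣ ((t' + 1 + n : ℕ) : ℤ) - a := by
    refine ⟨-((a - (t' + 1)) / q), ?_⟩
    have h2 := Int.emod_add_mul_ediv (a - (t' + 1)) q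
    push_cast
    rw [hn]
    linarith
  have hy : q ∣ w (t' + 1 + n) := (hc _ (by omega) (by omega)).2 hya
  have h2 : q ∣ v (2 * (t' + 1 + n)) := by
    rw [h.dbl _ (by omega) (by omega)]
    exact Dvd.dvd.mul_left hy 2
  have h3 := (ha0 _ (by omega) (by omega)).1 h2
  intro x hx1 hx2
  rw [ha0 x hx1 hx2]
  have h4 : (q : ℤ) ∣ 2 * a - a0 := by
    have : 2 * a - a0 = (((2 * (t' + 1 + n) : ℕ) : ℤ) - a0) - 2 * (((t' + 1 + n : ℕ) : ℤ) - a) := by
      push_cast
      ring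
    rw [this]
    exact dvd_sub h3 (Dvd.dvd.mul_left hya 2)
  constructor
  · intro h5
    have : (x : ℤ) - 2 * a = (x - a0) - (2 * a - a0) := by ring
    rw [this]
    exact dvd_sub h5 h4
  · intro h5
    have : (x : ℤ) - a0 = (x - 2 * a) + (2 * a - a0) := by ring
    rw [this]
    exact dvd_add h5 h4

lemma Slice.two (h : Slice k f t t' v w) {c : ℕ} {a : ℤ}
    (hc : Cls f t' w (2 ^ c) a) : Cls k t v (2 ^ (c + 1)) (2 * a) := by
  have hk := h.hk
  have ht := h.ht
  intro x hx1 hx2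
  rcases Nat.even_or_odd' x with ⟨y, rfl | rfl⟩
  · rw [h.dbl y (by omega) (by omega), pow_succ, Nat.mul_comm (2 ^ c) 2,
      Nat.mul_dvd_mul_iff_left (by norm_num), hc y (by omega) (by omega)]
    push_cast
    rw [← mul_sub, mul_dvd_mul_iff_left (by norm_num)]
  · constructor
    · intro h1
      have h2 : 2 ∣ v (2 * y + 1) := (Dvd.intro_left _ (pow_succ 2 c).symm).trans h1
      have h3 := (h.ev _ hx1 hx2).1 h2
      omega
    · intro h1
      have h2 : (2 : ℤ) ∣ ((2 * y + 1 : ℕ) : ℤ) - 2 * a := by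
        refine dvd_trans ?_ h1
        push_cast
        exact Dvd.intro_left _ (pow_succ 2 c).symm
      push_cast at h2
      omega

lemma Std.small (hS : Std f t' w D) {p c : ℕ} (hp : p.Prime) (hc : 1 ≤ c)
    (h : p ^ c < f / 2) : Cls f t' w (p ^ c) 0 := by
  rcases hS.cls p c hp hc (by omega) with h1 | ⟨h1, -⟩ | ⟨rfl, h1 | ⟨q, rfl, h1⟩⟩
  · exact h1
  · have := Nat.pow_le_pow_right hp.pos (show c - 1 ≤ c by omega)
    omega
  · have := (hS.tw p h1).2.2.2.1
    rw [pow_one] at h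
    omega
  · have := (hS.tw q h1).2.2.2.1
    rw [pow_one] at h
    omega

lemma Slice.good (h : Slice k f t t' v w) (hS : Std f t' w D) {p c : ℕ} (hp : p.Prime)
    (hp2 : p ≠ 2) (hc : 1 ≤ c) (hpc : p ^ c < f / 2) : Cls k t v (p ^ c) 0 := by
  have h1 := h.odd (q := p ^ c) (Nat.odd_iff.1 ((hp.odd_of_ne_two hp2).pow)) (by omega)
    (hS.small hp hc hpc)
  simpa using h1

lemma Slice.t_le (h : Slice k f t t' v w) (hS : Std f t' w D) : t ≤ 5 := by
  have ht := h.ht
  rcases hS.typ with h1 | h1 | h1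
  · have := h1.1
    omega
  · have := h1.1
    omega
  · have := h1.1
    omega

/-- There are no exchanged twins in the slice. -/
lemma Slice.no_tw (h : Slice k f t t' v w) (hS : Std f t' w D) {q : ℕ} (hD : D q) : False := by
  have hf := h.hf
  have hk := h.hk
  have ht5 := h.t_le hS
  obtain ⟨hq1, hq2, hq3, hq4, hq5, -⟩ := hS.tw q hD
  have hodd : q % 2 = 1 := by
    rcases hq1.eq_two_or_odd with h1 | h1
    · omega
    · exact h1
  have h3q : ¬ 3 ∣ q := fun hd => by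
    have := (Nat.prime_dvd_prime_iff_eq Nat.prime_three hq1).1 hd
    omega
  have h3q2 : ¬ 3 ∣ q + 2 := fun hd => by
    have := (Nat.prime_dvd_prime_iff_eq Nat.prime_three hq2).1 hd
    omega
  have hq3' : q % 3 = 2 := by
    have h1 : q % 3 ≠ 0 := fun h1 => h3q (Nat.dvd_of_mod_eq_zero h1)
    have h2 : q % 3 ≠ 1 := fun h2 => h3q2 (Nat.dvd_of_mod_eq_zero (by omega))
    omega
  obtain ⟨m, hm⟩ : ∃ m, q + 4 = 3 * m := ⟨(q + 4) / 3, by omega⟩
  have hm2 : m % 2 = 1 := by omega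
  have hm1 : m ≠ 1 := by omega
  obtain ⟨l, hl⟩ : ∃ l, l = m.minFac := ⟨_, rfl⟩
  have hlp : l.Prime := hl ▸ Nat.minFac_prime hm1
  have hlm : l ∣ m := hl ▸ Nat.minFac_dvd m
  have hlle : l ≤ m := Nat.le_of_dvd (by omega) hlm
  have hl2 : l ≠ 2 := by
    rintro rfl
    omega
  have hl3 : 3 ≤ l := by
    have := hlp.two_le
    omega
  have hq11 : 11 ≤ q := by
    have h1 : q ≠ 7 := by
      rintro rfl
      norm_num at hq2
    have h2 : q ≠ 9 := by
      rintro rfl
      norm_num at hq1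
    omega
  have hx1 : t + 1 ≤ q + 4 := by omega
  have hx2 : q + 4 ≤ t + k := by omega
  have h3 : 3 ∣ v (q + 4) := by
    have h1 := h.good hS Nat.prime_three (by norm_num) (le_refl 1) (by omega)
    rw [pow_one] at h1
    refine (h1 _ hx1 hx2).2 ?_
    rw [sub_zero]
    exact_mod_cast (Dvd.intro m hm.symm)
  have h3l : 3 * l ∣ v (q + 4) := by
    by_cases hl' : l = 3
    · subst hl'
      obtain ⟨m', hm'⟩ := hlm
      have h1 := h.good hS Nat.prime_three (by norm_num) (c := 2) (by norm_num) (by omega)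
      have h2 := (h1 _ hx1 hx2).2 (by
        rw [sub_zero]
        exact_mod_cast (Dvd.intro m' (by rw [hm, hm']; ring)))
      simpa using h2
    · have h1 := h.good hS hlp hl2 (le_refl 1) (by rw [pow_one]; omega)
      rw [pow_one] at h1
      have h2 : l ∣ v (q + 4) := (h1 _ hx1 hx2).2 (by
        rw [sub_zero]
        exact_mod_cast (hlm.trans (Dvd.intro_left 3 hm.symm)))
      exact ((Nat.coprime_primes Nat.prime_three hlp).2 (Ne.symm hl')).mul_dvd_of_dvd_of_dvd h3 h2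
  have hq : q ∣ v (q + 4) := by
    have h1 := h.odd hodd (by omega) hq5
    refine (h1 _ hx1 hx2).2 ?_
    push_cast
    refine ⟨1, by ring⟩
  have hco : q.Coprime (3 * l) := Nat.Coprime.mul_right
    ((Nat.coprime_primes hq1 Nat.prime_three).2 (by omega))
    ((Nat.coprime_primes hq1 hlp).2 (by omega))
  have h4 := hco.mul_dvd_of_dvd_of_dvd hq h3l
  have h5 := h.hv.bounds hx1 hx2
  have h6 := Nat.le_of_dvd h5.1 h4
  have h7 : q * 9 ≤ q * (3 * l) := Nat.mul_le_mul_left _ (by omega)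
  omega

/-- Odd free prime powers which are not primes are not exchanged in the slice. -/
lemma Slice.no_free (h : Slice k f t t' v w) (hS : Std f t' w D) {p c : ℕ} (hp : p.Prime)
    (hp2 : p ≠ 2) (hc : 2 ≤ c) (hle : p ^ c ≤ f) (hfree : f < p ^ c + p ^ (c - 1))
    (hcl : Cls f t' w (p ^ c) ((p ^ (c - 1) : ℕ) : ℤ)) : False := by
  have hf := h.hf
  have hk := h.hk
  have ht5 := h.t_le hS
  have hp3 : 3 ≤ p := by
    have := hp.two_le
    omega
  have hpodd : p % 2 = 1 := Nat.odd_iff.1 (hp.odd_of_ne_two hp2)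
  have h1 := h.odd (q := p ^ c) (Nat.odd_iff.1 ((hp.odd_of_ne_two hp2).pow)) hle hcl
  obtain ⟨P, hP⟩ : ∃ P, P = p ^ (c - 1) := ⟨_, rfl⟩
  have hpc : p ^ c = p * P := by
    rw [hP, ← pow_succ']
    congr 1
    omega
  have hPp : p ≤ P := by
    rw [hP]
    calc p = p ^ 1 := (pow_one p).symm
      _ ≤ p ^ (c - 1) := Nat.pow_le_pow_right hp.pos (by omega)
  rw [← hP, hpc] at hfree h1
  rw [hpc] at hle
  have hpp : p * p ≤ p * P := Nat.mul_le_mul_left _ hPp
  have h3P : 3 * P ≤ p * P := Nat.mul_le_mul_right _ hp3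
  have hxe : (p + 2) * P = p * P + 2 * P := by ring
  have hx1 : t + 1 ≤ (p + 2) * P := by omega
  have hx2 : (p + 2) * P ≤ t + k := by omega
  have h2 : p * P ∣ v ((p + 2) * P) := by
    refine (h1 _ hx1 hx2).2 ⟨1, ?_⟩
    push_cast
    ring
  obtain ⟨l, hl⟩ : ∃ l, l = (p + 2).minFac := ⟨_, rfl⟩
  have hlp : l.Prime := hl ▸ Nat.minFac_prime (by omega)
  have hlm : l ∣ p + 2 := hl ▸ Nat.minFac_dvd (p + 2)
  have hlle : l ≤ p + 2 := Nat.le_of_dvd (by omega) hlm
  have hl2 : l ≠ 2 := by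
    rintro rfl
    omega
  have hl3 : 3 ≤ l := by
    have := hlp.two_le
    omega
  have hlnp : l ≠ p := by
    rintro rfl
    have h3 : l ∣ 2 := (Nat.dvd_add_right (dvd_refl l)).1 hlm
    have := Nat.le_of_dvd (by norm_num) h3
    omega
  have hlf : l < f / 2 := by
    rcases Nat.lt_or_ge p 5 with h3 | h3
    · omega
    · have : 5 * p ≤ p * p := Nat.mul_le_mul_right _ h3
      omega
  have h3 := h.good hS hlp hl2 (le_refl 1) (by rw [pow_one]; exact hlf)
  rw [pow_one] at h3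
  have h4 : l ∣ v ((p + 2) * P) := (h3 _ hx1 hx2).2 (by
    rw [sub_zero]
    exact_mod_cast (Dvd.dvd.mul_right hlm P))
  have hco : l.Coprime (p * P) := by
    rw [← hpc]
    exact ((Nat.coprime_primes hlp hp).2 hlnp).pow_right c
  have h5 := hco.mul_dvd_of_dvd_of_dvd h4 h2
  have h6 := h.hv.bounds hx1 hx2
  have h7 := Nat.le_of_dvd h6.1 h5
  have h8 : 3 * (p * P) ≤ l * (p * P) := Nat.mul_le_mul_right _ hl3
  omega

/-- The odd prime powers up to `f`. -/
lemma Slice.hodd (h : Slice k f t t' v w) (hS : Std f t' w D) {p c : ℕ} (hp : p.Prime)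
    (hp2 : p ≠ 2) (hc : 1 ≤ c) (hle : p ^ c ≤ f) :
    Cls k t v (p ^ c) 0 ∨ (c = 1 ∧ p = f ∧ Cls k t v f 2) := by
  rcases hS.cls p c hp hc hle with h1 | ⟨h1, h2⟩ | ⟨rfl, h1 | ⟨q, rfl, h1⟩⟩
  · left
    have h2 := h.odd (q := p ^ c) (Nat.odd_iff.1 ((hp.odd_of_ne_two hp2).pow)) hle h1
    simpa using h2
  · rcases Nat.lt_or_ge c 2 with h3 | h3
    · have hc1 : c = 1 := by omega
      subst hc1
      right
      simp only [pow_one, Nat.sub_self, pow_zero, Nat.cast_one] at h1 h2 hle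
      have hpf : p = f := by omega
      refine ⟨rfl, hpf, ?_⟩
      subst hpf
      have h4 := h.odd (Nat.odd_iff.1 (hp.odd_of_ne_two hp2)) le_rfl h2
      simpa using h4
    · exact (h.no_free hS hp hp2 h3 hle h1 h2).elim
  · exact (h.no_tw hS h1).elim
  · exact (h.no_tw hS h1).elim

/-- The powers of two. -/
lemma Slice.heven (h : Slice k f t t' v w) (hS : Std f t' w D) {c : ℕ} (hc : 1 ≤ c)
    (hle : 2 ^ c ≤ k) :
    Cls k t v (2 ^ c) 0 ∨ (k < 2 ^ c + 2 ^ (c - 1) ∧ Cls k t v (2 ^ c) ((2 ^ (c - 1) : ℕ) : ℤ)) := by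
  have hk := h.hk
  rcases Nat.lt_or_ge c 2 with h1 | h1
  · left
    have hc1 : c = 1 := by omega
    subst hc1
    intro x hx1 hx2
    rw [pow_one, h.ev x hx1 hx2, sub_zero]
    exact_mod_cast Iff.rfl
  · obtain ⟨c, rfl⟩ : ∃ c', c = c' + 2 := ⟨c - 2, by omega⟩
    have e1 : 2 ^ (c + 2) = 2 * 2 ^ (c + 1) := by ring
    have e2 : 2 ^ (c + 1) = 2 * 2 ^ c := by ring
    rw [e1] at hle
    rcases hS.cls 2 (c + 1) Nat.prime_two (by omega) (by omega) with h2 | ⟨h2, h3⟩ |
      ⟨-, h2 | ⟨q, -, h2⟩⟩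
    · left
      have h3 := h.two h2
      simpa using h3
    · right
      have e3 : c + 1 - 1 = c := by omega
      have e4 : c + 2 - 1 = c + 1 := by omega
      rw [e3] at h2 h3
      rw [e4]
      constructor
      · omega
      · have h4 := h.two h3
        have e5 : (2 : ℤ) * ((2 ^ c : ℕ) : ℤ) = ((2 ^ (c + 1) : ℕ) : ℤ) := by
          push_cast
          ring
        rw [e5] at h4
        exact h4
    · exact (h.no_tw hS h2).elim
    · exact (h.no_tw hS h2).elim

/-- Coordinates whose value has no prime factor below `f`. -/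
lemma Slice.pr (h : Slice k f t t' v w) (hS : Std f t' w D) {z : ℕ} (hz : z % 2 = 1)
    (hz1 : t + 1 ≤ z) (hz2 : z ≤ t + k)
    (hl : ∀ l : ℕ, l.Prime → l < f → ¬ l ∣ v z) : z = 1 ∨ (z.Prime ∧ f ≤ z) := by
  have hf := h.hf
  have hk := h.hk
  have ht5 := h.t_le hS
  by_cases hz3 : z = 1
  · exact Or.inl hz3
  · right
    have h1 : ∀ l : ℕ, l.Prime → l ∣ z → f ≤ l := by
      intro l hl1 hl2
      by_contra hcon
      push Not at hcon
      have hl3 : l ≠ 2 := by
        rintro rfl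
        omega
      rcases h.hodd hS hl1 hl3 (le_refl 1) (by rw [pow_one]; omega) with h2 | ⟨-, h2, -⟩
      · rw [pow_one] at h2
        refine hl l hl1 hcon ((h2 z hz1 hz2).2 ?_)
        rw [sub_zero]
        exact_mod_cast hl2
      · omega
    have h2 : z.Prime := by
      by_contra hcon
      have h3 := Nat.minFac_sq_le_self (by omega) hcon
      have h4 := h1 _ (Nat.minFac_prime hz3) (Nat.minFac_dvd z)
      have h5 : f * f ≤ z.minFac * z.minFac := Nat.mul_le_mul h4 h4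
      have h6 : 12 * f ≤ f * f := Nat.mul_le_mul_right _ hf
      rw [pow_two] at h3
      omega
    exact ⟨h2, h1 z h2 dvd_rfl⟩

/-- New prime powers. -/
lemma Slice.newq (h : Slice k f t t' v w) {p c : ℕ} (hp : p.Prime)
    (hp2 : p ≠ 2) (h1 : f < p ^ c) (h2 : p ^ c ≤ k) :
    ∃ x, k + t < p ^ c + x ∧ x ≤ t + p ^ c ∧ v x = p ^ c ∧ Cls k t v (p ^ c) x ∧ x % 2 = 1 := by
  have hk := h.hk
  have hpodd : (p ^ c) % 2 = 1 := Nat.odd_iff.1 ((hp.odd_of_ne_two hp2).pow)
  obtain ⟨x, hx1, hx2, hx3, hx4⟩ := h.hv.big h2 (by omega)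
  refine ⟨x, hx1, hx2, hx3, hx4, ?_⟩
  have h3 := h.ev x (by omega) (by omega)
  rw [hx3] at h3
  by_contra hcon
  have h4 : 2 ∣ p ^ c := h3.2 (by omega)
  omega

lemma Slice.new2 (h : Slice k f t t' v w) (hS : Std f t' w D) (ht3 : t ≤ 3) {p c : ℕ}
    (hp : p.Prime) (hp2 : p ≠ 2) (hc : 2 ≤ c) (h1 : f < p ^ c) (h2 : p ^ c ≤ k) :
    Cls k t v (p ^ c) 0 ∨ (k < p ^ c + p ^ (c - 1) ∧ Cls k t v (p ^ c) ((p ^ (c - 1) : ℕ) : ℤ)) := by
  have hf := h.hf
  have hk := h.hk
  obtain ⟨x, hx1, hx2, hx3, hx4, hx5⟩ := h.newq hp hp2 h1 h2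
  have hp3 : 3 ≤ p := by
    have := hp.two_le
    omega
  obtain ⟨P, hP⟩ : ∃ P, P = p ^ (c - 1) := ⟨_, rfl⟩
  have hpc : p ^ c = p * P := by
    rw [hP, ← pow_succ']
    congr 1
    omega
  have hPp : p ≤ P := by
    rw [hP]
    calc p = p ^ 1 := (pow_one p).symm
      _ ≤ p ^ (c - 1) := Nat.pow_le_pow_right hp.pos (by omega)
  have h3P : 3 * P ≤ p * P := Nat.mul_le_mul_right _ hp3
  have hPx : P ∣ x := by
    rcases h.hodd hS hp hp2 (c := c - 1) (by omega) (by rw [← hP]; omega) with h3 | ⟨h3, h4, -⟩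
    · rw [← hP] at h3
      have h4 := (h3 x (by omega) (by omega)).1 (by
        rw [hx3, hpc]
        exact dvd_mul_left P p)
      rw [sub_zero] at h4
      exact_mod_cast h4
    · rw [h3, pow_one] at hP
      omega
  obtain ⟨j, hj⟩ := hPx
  have hj0 : 0 < j := by
    rcases Nat.eq_zero_or_pos j with h3 | h3
    · rw [h3] at hj
      omega
    · exact h3
  have hjf : j < f := by
    have : 3 * j ≤ P * j := Nat.mul_le_mul_right _ (by omega)
    omega
  have hl : ∀ l : ℕ, l.Prime → l ∣ j → l = p := by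
    intro l hl1 hl2
    have hl3 : l ≤ j := Nat.le_of_dvd hj0 hl2
    have hlx : l ∣ x := by
      rw [hj]
      exact Dvd.dvd.mul_left hl2 P
    have hl4 : l ≠ 2 := by
      rintro rfl
      omega
    rcases h.hodd hS hl1 hl4 (le_refl 1) (by rw [pow_one]; omega) with h3 | ⟨-, h3, -⟩
    · rw [pow_one] at h3
      have h4 : l ∣ v x := (h3 x (by omega) (by omega)).2 (by
        rw [sub_zero]
        exact_mod_cast hlx)
      rw [hx3] at h4
      exact (Nat.prime_dvd_prime_iff_eq hl1 hp).1 (hl1.dvd_of_dvd_pow h4)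
    · omega
  rw [← hP, hpc]
  rw [hpc] at hx1 hx2 hx3 hx4 h1 h2
  by_cases hj1 : j = 1
  · right
    rw [hj1, Nat.mul_one] at hj
    subst hj
    exact ⟨by omega, hx4⟩
  · left
    have h3 : p ∣ j := by
      have h4 := hl _ (Nat.minFac_prime hj1) (Nat.minFac_dvd j)
      rw [← h4]
      exact Nat.minFac_dvd j
    obtain ⟨j', rfl⟩ := h3
    by_cases hj2 : j' = 1
    · rw [hj2, Nat.mul_one, Nat.mul_comm] at hj
      rw [hj] at hx4
      exact hx4.congr (by simp)
    · exfalso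
      have h4 : p ∣ j' := by
        have h5 := hl _ (Nat.minFac_prime hj2) ((Nat.minFac_dvd j').trans (dvd_mul_left j' p))
        rw [← h5]
        exact Nat.minFac_dvd j'
      obtain ⟨j'', rfl⟩ := h4
      have h5 : 0 < j'' := by
        rcases Nat.eq_zero_or_pos j'' with h6 | h6
        · rw [h6] at hj0
          simp at hj0
        · exact h6
      have h6 : x = (p * P) * (p * j'') := by
        rw [hj]
        ring
      have h7 : (p * P) * 3 ≤ (p * P) * (p * j'') :=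
        Nat.mul_le_mul_left _ (hp3.trans (Nat.le_mul_of_pos_right _ h5))
      omega

lemma Slice.new1 (h : Slice k f t t' v w) (hS : Std f t' w D) {q : ℕ}
    (hq : q.Prime) (h1 : f < q) (h2 : q ≤ k) :
    ∃ x, k + t < q + x ∧ x ≤ t + q ∧ v x = q ∧ Cls k t v q x ∧ x % 2 = 1 ∧
      (x = 1 ∨ (x.Prime ∧ f ≤ x)) := by
  have hf := h.hf
  have hk := h.hk
  obtain ⟨x, hx1, hx2, hx3, hx4, hx5⟩ := h.newq (c := 1) hq (by omega) (by rwa [pow_one])
    (by rwa [pow_one])
  rw [pow_one] at hx1 hx2 hx3 hx4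
  refine ⟨x, hx1, hx2, hx3, hx4, hx5, h.pr hS hx5 (by omega) (by omega) ?_⟩
  intro l hl1 hl2 hl3
  rw [hx3] at hl3
  have := (Nat.prime_dvd_prime_iff_eq hl1 hq).1 hl3
  omega

end Pool.Agent.Q58.WCS
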