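import Mathlib
import Pool.Agent.Q58.WCS.Step

/-!
# Weakly consecutive sequences: the doubling step, the cases
-/

set_option autoImplicit false

namespace Pool.Agent.Q58.WCS

variable {k f t t' : ℕ} {v w : ℕ → ℕ} {D : ℕ → Prop}

lemma three_primes {q : ℕ} (h : 4 ≤ q) (h1 : q.Prime) (h2 : (q + 2).Prime)
    (h3 : (q + 4).Prime) : False := by
  have e : q % 3 = 0 ∨ q % 3 = 1 ∨ q % 3 = 2 := by omega
  rcases e with e | e | e
  · have := (Nat.prime_dvd_prime_iff_eq Nat.prime_three h1).1 (Nat.dvd_of_mod_eq_zero e)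
    omega
  · have := (Nat.prime_dvd_prime_iff_eq Nat.prime_three h2).1
      (Nat.dvd_of_mod_eq_zero (by omega))
    omega
  · have := (Nat.prime_dvd_prime_iff_eq Nat.prime_three h3).1
      (Nat.dvd_of_mod_eq_zero (by omega))
    omega

lemma Slice.prime_of_one (h : Slice k f t t' v w) (hS : Std f t' w D) {z : ℕ} (hz : z % 2 = 1)
    (hz1 : t + 1 ≤ z) (hz2 : z ≤ t + k) (hz3 : z ≠ 1) (hv1 : v z = 1) : z.Prime := by
  rcases h.pr hS hz hz1 hz2 (by
    intro l hl _ hd
    rw [hv1] at hd
    exact hl.one_lt.ne' (Nat.dvd_one.1 hd)) with h1 | h1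
  · exact (hz3 h1).elim
  · exact h1.1

/-- The other cases of the classes. -/
lemma Slice.cls_of (h : Slice k f t t' v w) (hS : Std f t' w D) (ht3 : t ≤ 3)
    (E : ℕ → Prop)
    (h1 : ∀ p c : ℕ, p.Prime → p ≠ 2 → 1 ≤ c → p ^ c ≤ f → Cls k t v (p ^ c) 0 ∨ (c = 1 ∧ E p))
    (h2 : ∀ q : ℕ, q.Prime → f < q → q ≤ k → Cls k t v q 0 ∨ (q = k ∧ Cls k t v q 1) ∨
      (E q ∨ ∃ q', q = q' + 2 ∧ E q')) :
    ∀ p c, p.Prime → 1 ≤ c → p ^ c ≤ k →
    Cls k t v (p ^ c) 0 ∨ (k < p ^ c + p ^ (c - 1) ∧ Cls k t v (p ^ c) ((p ^ (c - 1) : ℕ) : ℤ)) ∨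
    (c = 1 ∧ (E p ∨ ∃ q, p = q + 2 ∧ E q)) := by
  intro p c hp hc hle
  by_cases hp2 : p = 2
  · subst hp2
    rcases h.heven hS hc hle with h3 | h3
    · exact Or.inl h3
    · exact Or.inr (Or.inl h3)
  rcases Nat.lt_or_ge f (p ^ c) with h3 | h3
  · rcases Nat.lt_or_ge c 2 with h4 | h4
    · have hc1 : c = 1 := by omega
      subst hc1
      rw [pow_one] at h3 hle ⊢
      rcases h2 p hp h3 hle with h5 | ⟨h5, h6⟩ | h5
      · exact Or.inl h5
      · right
        left
        simp only [Nat.sub_self, pow_zero, Nat.cast_one]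
        exact ⟨by omega, h6⟩
      · exact Or.inr (Or.inr ⟨rfl, h5⟩)
    · rcases h.new2 hS ht3 hp hp2 h4 h3 hle with h5 | h5
      · exact Or.inl h5
      · exact Or.inr (Or.inl h5)
  · rcases h1 p c hp hp2 hc h3 with h4 | ⟨h4, h5⟩
    · exact Or.inl h4
    · exact Or.inr (Or.inr ⟨h4, Or.inl h5⟩)

/-- The slice of type 0. -/
lemma Slice.step01 (h : Slice k f t 0 v w) (hS : Std f 0 w D) : ∃ E, Std k t v E := by
  have hf := h.hf
  have hk := h.hk
  have ht := h.ht
  have ht1 : t ≤ 1 := by omega
  -- the type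
  have htyp : ∀ E : ℕ → Prop, (∀ q, E q → q = k / 2) →
      ((t = 0 ∧ ∀ q, E q → q = k / 2) ∨ (t = 1 ∧ (k + 1).Prime ∧ ∀ q, E q → q = k / 2) ∨
    (t = 2 ∧ ∃ P, k + 1 = 2 * P ∧ P.Prime ∧ (P + 2).Prime ∧ (2 * P + 1).Prime ∧ E P)) := by
    intro E hE
    rcases ht with ht | ⟨ht, hk2⟩
    · left
      exact ⟨by omega, hE⟩
    · right
      left
      have ht1' : t = 1 := by omega
      refine ⟨ht1', ?_, hE⟩
      subst ht1'
      have h1 := (h.ev 2 (by omega) (by omega)).2 dvd_rfl
      have h2 : v (1 + k) = 1 := by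
        rcases h.hv.one with h3 | h3
        · rw [h3] at h1
          omega
        · exact h3
      have h3 := h.prime_of_one hS (z := 1 + k) (by omega) (by omega) le_rfl (by omega) h2
      rwa [Nat.add_comm] at h3
  have hqodd : ∀ q : ℕ, q.Prime → f ≤ q → q % 2 = 1 := by
    intro q hq1 hq2
    rcases hq1.eq_two_or_odd with h1 | h1
    · omega
    · exact h1
  by_cases hb : f.Prime ∧ Cls k t v f 2 ∧ ¬ Cls k t v f 0
  · obtain ⟨hfp, hf2, -⟩ := hb
    have hfo := hqodd f hfp le_rfl
    have vf2 : v (f + 2) = f := by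
      have h1 : f ∣ v (f + 2) := by
        refine (hf2 _ (by omega) (by omega)).2 ⟨1, ?_⟩
        push_cast
        ring
      have h2 := h.hv.bounds (x := f + 2) (by omega) (by omega)
      have h3 := h.ev (f + 2) (by omega) (by omega)
      obtain ⟨c, hc⟩ := h1
      have h4 : c < 3 := by
        by_contra hcon
        push Not at hcon
        have : f * 3 ≤ f * c := Nat.mul_le_mul_left _ hcon
        omega
      have h5 : c ≠ 0 := by
        rintro rfl
        omega
      have h6 : c ≠ 2 := by
        rintro rfl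
        have := h3.1 ⟨f, by omega⟩
        omega
      have h7 : c = 1 := by omega
      rw [hc, h7, Nat.mul_one]
    have hf2p : (f + 2).Prime := by
      rcases h.pr hS (z := f + 2) (by omega) (by omega) (by omega) (by
        intro l hl hlf hd
        rw [vf2] at hd
        have := (Nat.prime_dvd_prime_iff_eq hl hfp).1 hd
        omega) with h1 | h1
      · omega
      · exact h1.1
    have vf : v f = f + 2 ∧ Cls k t v (f + 2) f := by
      obtain ⟨x, hx1, hx2, hx3, hx4, hx5, hx6⟩ := h.new1 hS hf2p (by omega) (by omega)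
      have h1 : x ≠ f + 2 := by
        rintro rfl
        omega
      have h2 : x = f := by
        rcases hx6 with h3 | ⟨h3, h4⟩
        · omega
        · omega
      subst h2
      exact ⟨hx3, hx4⟩
    have hP : ∀ q : ℕ, q.Prime → f < q → q ≤ k →
        (v q = q ∧ Cls k t v q 0) ∨ (q = k ∧ Cls k t v q 1) ∨ q = f + 2 := by
      intro q
      induction q using Nat.strong_induction_on with
      | _ q ih =>
        intro hq hq1 hq2
        obtain ⟨x, hx1, hx2, hx3, hx4, hx5, hx6⟩ := h.new1 hS hq hq1 hq2
        have hqo := hqodd q hq hq1.le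
        rcases hx6 with rfl | ⟨hx6, hx7⟩
        · right
          left
          exact ⟨by omega, by simpa using hx4⟩
        · rcases Nat.lt_trichotomy x q with h1 | h1 | h1
          · rcases Nat.lt_or_ge f x with h2 | h2
            · rcases ih x h1 hx6 h2 (by omega) with ⟨h3, -⟩ | ⟨h3, -⟩ | h3
              · omega
              · omega
              · rw [h3, vf2] at hx3
                omega
            · have h3 : x = f := by omega
              rw [h3, vf.1] at hx3
              right
              right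
              exact hx3.symm
          · subst h1
            left
            exact ⟨hx3, hx4.congr (by simp)⟩
          · omega
    refine ⟨fun q => q = f, ?_, ?_, ?_⟩
    · rintro q rfl
      refine ⟨hfp, hf2p, by omega, by omega, hf2, vf.2.congr ⟨1, ?_⟩⟩
      push_cast
      ring
    · refine h.cls_of hS (by omega) _ ?_ ?_
      · intro p c hp hp2 hc hle
        rcases h.hodd hS hp hp2 hc hle with h1 | ⟨h1, h2, -⟩
        · exact Or.inl h1
        · exact Or.inr ⟨h1, h2⟩
      · intro q hq hq1 hq2
        rcases hP q hq hq1 hq2 with h1 | h1 | h1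
        · exact Or.inl h1.2
        · exact Or.inr (Or.inl h1)
        · exact Or.inr (Or.inr (Or.inr ⟨f, h1, rfl⟩))
    · apply htyp
      rintro q rfl
      omega
  · have hgoodf : f.Prime → Cls k t v f 0 := by
      intro hfp
      by_contra hcon
      rcases h.hodd hS hfp (by omega) (le_refl 1) (by rw [pow_one]) with h1 | ⟨-, -, h1⟩
      · rw [pow_one] at h1
        exact hcon h1
      · exact hb ⟨hfp, h1, hcon⟩
    have hP : ∀ q : ℕ, q.Prime → f < q → q ≤ k →
        (v q = q ∧ Cls k t v q 0) ∨ (q = k ∧ Cls k t v q 1) := by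
      intro q
      induction q using Nat.strong_induction_on with
      | _ q ih =>
        intro hq hq1 hq2
        obtain ⟨x, hx1, hx2, hx3, hx4, hx5, hx6⟩ := h.new1 hS hq hq1 hq2
        have hqo := hqodd q hq hq1.le
        rcases hx6 with rfl | ⟨hx6, hx7⟩
        · right
          exact ⟨by omega, by simpa using hx4⟩
        · rcases Nat.lt_trichotomy x q with h1 | h1 | h1
          · rcases Nat.lt_or_ge f x with h2 | h2
            · rcases ih x h1 hx6 h2 (by omega) with ⟨h3, -⟩ | ⟨h3, -⟩
              · omega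
              · omega
            · exfalso
              have h3 : x = f := by omega
              subst h3
              have h4 := (hgoodf hx6 x (by omega) (by omega)).2 (by simp)
              rw [hx3] at h4
              have := (Nat.prime_dvd_prime_iff_eq hx6 hq).1 h4
              omega
          · subst h1
            left
            exact ⟨hx3, hx4.congr (by simp)⟩
          · omega
    refine ⟨fun _ => False, ?_, ?_, ?_⟩
    · intro q hq
      exact hq.elim
    · refine h.cls_of hS (by omega) _ ?_ ?_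
      · intro p c hp hp2 hc hle
        rcases h.hodd hS hp hp2 hc hle with h1 | ⟨rfl, rfl, h2⟩
        · exact Or.inl h1
        · left
          rw [pow_one]
          exact hgoodf hp
      · intro q hq hq1 hq2
        rcases hP q hq hq1 hq2 with h1 | h1
        · exact Or.inl h1.2
        · exact Or.inr (Or.inl h1)
    · apply htyp
      intro q hq
      exact hq.elim

/-- The slice of type 1. -/
lemma Slice.step2 (h : Slice k f t 1 v w) (hS : Std f 1 w D) (hfp : (f + 1).Prime) :
    ∃ E, Std k t v E := by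
  have hf := h.hf
  have hk := h.hk
  have ht := h.ht
  have hf2 : f % 2 = 0 := by
    rcases hfp.eq_two_or_odd with h1 | h1
    · omega
    · omega
  have hfnp : ¬ f.Prime := by
    intro h1
    rcases h1.eq_two_or_odd with h2 | h2
    · omega
    · omega
  have hgood : ∀ p c : ℕ, p.Prime → p ≠ 2 → 1 ≤ c → p ^ c ≤ f → Cls k t v (p ^ c) 0 := by
    intro p c hp hp2 hc hle
    rcases h.hodd hS hp hp2 hc hle with h1 | ⟨rfl, rfl, h2⟩
    · exact h1
    · exact (hfnp hp).elim
  have h3 : Cls k t v 3 0 := by
    have := hgood 3 1 Nat.prime_three (by norm_num) le_rfl (by rw [pow_one]; omega)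
    rwa [pow_one] at this
  rcases ht with ht | ⟨ht, hk2⟩
  · have ht2 : t = 2 := by omega
    subst ht2
    have h4 : v (2 + k) = 1 := by
      rcases h.hv.one with h5 | h5
      · have h6 := (h3 (2 + 1) (by omega) (by omega)).2 (by norm_num)
        rw [h5] at h6
        norm_num at h6
      · exact h5
    have hk' : k = 2 * f + 1 := by
      rcases hk with hk | hk
      · have h5 := (h.ev (2 + k) (by omega) le_rfl).2 (by omega)
        rw [h4] at h5
        omega
      · exact hk
    have h5 := h.prime_of_one hS (z := 2 + k) (by omega) (by omega) le_rfl (by omega) h4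
    have hnew : ∀ q : ℕ, q.Prime → f < q → q ≤ k → ∃ x, k + 2 < q + x ∧ x ≤ q + 2 ∧ v x = q ∧
        Cls k 2 v q x ∧ x % 2 = 1 ∧ x.Prime ∧ f < x ∧ x ≤ k := by
      intro q hq hq1 hq2
      obtain ⟨x, hx1, hx2, hx3, hx4, hx5, hx6⟩ := h.new1 hS hq hq1 hq2
      have h6 : x ≠ 2 + k := by
        rintro rfl
        omega
      rcases hx6 with hx6 | ⟨hx6, hx7⟩
      · omega
      · have h7 : x ≠ f := by
          rintro rfl
          exact hfnp hx6
        exact ⟨x, by omega, by omega, hx3, hx4, hx5, hx6, by omega, by omega⟩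
    have hqodd : ∀ q : ℕ, q.Prime → f ≤ q → q % 2 = 1 := by
      intro q hq1 hq2
      rcases hq1.eq_two_or_odd with h1 | h1
      · omega
      · exact h1
    obtain ⟨E, hE⟩ : ∃ E : ℕ → Prop, E = fun q => q.Prime ∧ (q + 2).Prime ∧ f < q ∧ q + 2 ≤ k ∧
      v (q + 2) = q ∧ v q = q + 2 ∧ Cls k 2 v q 2 ∧ Cls k 2 v (q + 2) (-2) := ⟨_, rfl⟩
    have hEq : ∀ q, E q ↔ q.Prime ∧ (q + 2).Prime ∧ f < q ∧ q + 2 ≤ k ∧
      v (q + 2) = q ∧ v q = q + 2 ∧ Cls k 2 v q 2 ∧ Cls k 2 v (q + 2) (-2) := by
      intro q
      rw [hE]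
    have hP : ∀ q : ℕ, q.Prime → f < q → q ≤ k →
        (v q = q ∧ Cls k 2 v q 0) ∨ E q ∨ ∃ q', q = q' + 2 ∧ E q' := by
      intro q
      induction q using Nat.strong_induction_on with
      | _ q ih =>
        intro hq hq1 hq2
        obtain ⟨x, hx1, hx2, hx3, hx4, hx5, hx6, hx7, hx8⟩ := hnew q hq hq1 hq2
        have hqo := hqodd q hq hq1.le
        rcases Nat.lt_trichotomy x q with h1 | h1 | h1
        · rcases ih x h1 hx6 hx7 hx8 with ⟨h6, -⟩ | h6 | ⟨q', h6, h7⟩
          · omega
          · right
            right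
            refine ⟨x, ?_, h6⟩
            have := ((hEq x).1 h6).2.2.2.2.2.1
            omega
          · have := ((hEq q').1 h7).2.2.2.2.1
            rw [← h6] at this
            omega
        · subst h1
          left
          exact ⟨hx3, hx4.congr (by simp)⟩
        · have h6 : x = q + 2 := by omega
          subst h6
          obtain ⟨y, hy1, hy2, hy3, hy4, hy5, hy6, hy7, hy8⟩ := hnew (q + 2) hx6 hx7 hx8
          have h7 : y ≠ q + 4 := by
            rintro rfl
            exact three_primes (by omega) hq hx6 hy6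
          have h8 : y ≠ q + 2 := by
            rintro rfl
            omega
          rcases Nat.lt_or_ge y q with h9 | h9
          · exfalso
            rcases ih y h9 hy6 hy7 hy8 with ⟨h10, -⟩ | h10 | ⟨q', h10, h11⟩
            · omega
            · have := ((hEq y).1 h10).2.2.2.2.2.1
              omega
            · have := ((hEq q').1 h11).2.2.2.2.1
              rw [← h10] at this
              omega
          · have h10 : y = q := by omega
            subst h10
            right
            left
            rw [hEq]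
            refine ⟨hq, hx6, hq1, hx8, hx3, hy3, hx4.congr ⟨1, ?_⟩, hy4.congr ⟨1, ?_⟩⟩
            · push_cast
              ring
            · push_cast
              ring
    have hEP : E (f + 1) := by
      obtain ⟨x, hx1, hx2, hx3, hx4, hx5, hx6, hx7, hx8⟩ := hnew (f + 1) hfp (by omega) (by omega)
      have hx : x = f + 3 := by omega
      subst hx
      rcases hP (f + 1) hfp (by omega) (by omega) with ⟨h6, -⟩ | h6 | ⟨q', h6, h7⟩
      · have := h.hv.inj (x := f + 1) (y := f + 3) (by omega) (by omega) (by omega) (by omega)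
          (by rw [h6, hx3])
        omega
      · exact h6
      · have := ((hEq q').1 h7).2.2.1
        omega
    refine ⟨E, ?_, ?_, ?_⟩
    · intro q hq
      obtain ⟨e1, e2, e3, e4, e5, e6, e7, e8⟩ := (hEq q).1 hq
      exact ⟨e1, e2, e4, by omega, e7, e8⟩
    · refine h.cls_of hS (by omega) _ ?_ ?_
      · intro p c hp hp2 hc hle
        exact Or.inl (hgood p c hp hp2 hc hle)
      · intro q hq hq1 hq2
        rcases hP q hq hq1 hq2 with h1 | h1
        · exact Or.inl h1.2
        · exact Or.inr (Or.inr h1)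
    · right
      right
      refine ⟨rfl, f + 1, by omega, hfp, ((hEq _).1 hEP).2.1, ?_, hEP⟩
      have : 2 * (f + 1) + 1 = 2 + k := by omega
      rw [this]
      exact h5
  · exfalso
    have ht3 : t = 3 := by omega
    subst ht3
    obtain ⟨x, hx1, hx2, hx3⟩ := h.hv.surj (n := 3) (by omega) (by omega)
    have hx4 : 3 ∣ x := by
      have h1 := (h3 x hx1 hx2).1 (by rw [hx3])
      rw [sub_zero] at h1
      exact_mod_cast h1
    have hx5 : x % 2 = 1 := by
      have h1 := h.ev x hx1 hx2
      rw [hx3] at h1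
      by_contra hcon
      have h2 : 2 ∣ 3 := h1.2 (by omega)
      norm_num at h2
    obtain ⟨y, rfl⟩ := hx4
    have hy1 : y ≠ 1 := by omega
    have hyf : y ≤ f := by omega
    have hl1 := Nat.minFac_prime hy1
    have hl2 := Nat.minFac_dvd y
    have hl3 : y.minFac ≤ y := Nat.le_of_dvd (by omega) hl2
    obtain ⟨l, hl⟩ : ∃ l, l = y.minFac := ⟨_, rfl⟩
    rw [← hl] at hl1 hl2 hl3
    have hl4 : l ≠ 2 := by
      rintro rfl
      omega
    by_cases hl5 : l = 3
    · rw [hl5] at hl2
      obtain ⟨z, rfl⟩ := hl2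
      have h9 := hgood 3 2 Nat.prime_three (by norm_num) (by norm_num) (by omega)
      have h1 := (h9 _ hx1 hx2).2 (by
        rw [sub_zero]
        exact_mod_cast (Dvd.intro z (by ring)))
      rw [hx3] at h1
      norm_num at h1
    · have h9 := hgood l 1 hl1 hl4 le_rfl (by rw [pow_one]; omega)
      rw [pow_one] at h9
      have h1 := (h9 _ hx1 hx2).2 (by
        rw [sub_zero]
        exact_mod_cast (Dvd.dvd.mul_left hl2 3))
      rw [hx3] at h1
      exact hl5 ((Nat.prime_dvd_prime_iff_eq hl1 Nat.prime_three).1 h1)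

theorem Slice.step (h : Slice k f t t' v w) (hS : Std f t' w D) : ∃ E, Std k t v E := by
  rcases hS.typ with ⟨h1, -⟩ | ⟨h1, h2, -⟩ | ⟨h1, P, -, -, -, -, h2⟩
  · subst h1
    exact h.step01 hS
  · subst h1
    exact h.step2 hS h2
  · exact (h.no_tw hS h2).elim

end Pool.Agent.Q58.WCS
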