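import Mathlib
import Pool.Agent.Q58.WCS.Step2
import Pool.Agent.Q58.WCS.Search

/-!
# Weakly consecutive sequences: the structure of all long sequences
-/

set_option autoImplicit false

namespace Pool.Agent.Q58.WCS

open Pool.Agent.Results.MP_a4c3d5_co.SmallTerms

lemma getD_map (k : ℕ) (σ : ℕ → ℕ) {j : ℕ} (hj : j < k) :
    ((List.range' 1 k).map σ).getD j 0 = σ (j + 1) := by
  rw [List.getD_eq_getElem _ _ (by simpa using hj), List.getElem_map, List.getElem_range']
  congr 1
  omega

lemma clsP.cls {k t q b : ℕ} {σ : ℕ → ℕ} {a : ℤ}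
    (h : clsP k t ((List.range' 1 k).map σ) q b) (hab : (q : ℤ) ∣ a + b) :
    Cls k t (fun x => σ (x - t)) q a := by
  intro x hx1 hx2
  have h1 := h (x - t - 1) (by omega)
  rw [getD_map k σ (by omega)] at h1
  have e1 : x - t - 1 + 1 = x - t := by omega
  have e2 : x - t - 1 + 1 + t + b = x + b := by omega
  rw [e2, e1] at h1
  have h2 : q ∣ σ (x - t) ↔ q ∣ x + b := by
    rw [Nat.dvd_iff_mod_eq_zero, Nat.dvd_iff_mod_eq_zero, h1]
  show q ∣ σ (x - t) ↔ _
  rw [h2, ← Int.natCast_dvd_natCast]
  push_cast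
  constructor
  · intro h3
    have : (x : ℤ) - a = (x + b) - (a + b) := by ring
    rw [this]
    exact dvd_sub h3 hab
  · intro h3
    have : (x : ℤ) + b = (x - a) + (a + b) := by ring
    rw [this]
    exact dvd_add h3 hab

lemma mem_ppsk {k p c : ℕ} (hk : k < 24) (hp : p.Prime) (hc : 1 ≤ c) (h : p ^ c ≤ k) :
    (p ^ c, p) ∈ ppsk k := by
  have h1 : p ≤ 23 := by
    calc p = p ^ 1 := (pow_one p).symm
      _ ≤ p ^ c := Nat.pow_le_pow_right hp.pos hc
      _ ≤ 23 := by omega
  have h2 : c ≤ 4 := by
    by_contra hcon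
    push Not at hcon
    have h3 : 2 ^ 5 ≤ p ^ c := by
      calc 2 ^ 5 ≤ 2 ^ c := Nat.pow_le_pow_right (by norm_num) hcon
        _ ≤ p ^ c := Nat.pow_le_pow_left hp.two_le c
    omega
  have h3 : (p ^ c, p) ∈ pps := by
    have h4 : p ^ c ≤ 23 := by omega
    clear h hk
    interval_cases c
    · rw [pow_one]
      interval_cases p <;> first | (norm_num at hp; done) | decide
    · have h5 : p ≤ 4 := by nlinarith
      interval_cases p <;> first | (norm_num at hp; done) | decide
    · have h5 : p ≤ 2 := by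
        by_contra hcon
        push Not at hcon
        have : 3 ^ 3 ≤ p ^ 3 := Nat.pow_le_pow_left hcon 3
        omega
      interval_cases p <;> first | (norm_num at hp; done) | decide
    · have h5 : p ≤ 2 := by
        by_contra hcon
        push Not at hcon
        have : 3 ^ 4 ≤ p ^ 4 := Nat.pow_le_pow_left hcon 4
        omega
      interval_cases p <;> first | (norm_num at hp; done) | decide
  rw [ppsk, List.mem_filter]
  refine ⟨h3, ?_⟩
  rw [Nat.ble_eq]
  exact h

lemma stdP.std {k t : ℕ} {σ : ℕ → ℕ} (hk : k < 24)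
    (h : stdP k t ((List.range' 1 k).map σ)) : ∃ E, Std k t (fun x => σ (x - t)) E := by
  obtain ⟨h1, h2⟩ := h
  refine ⟨dP k t ((List.range' 1 k).map σ), ?_, ?_, ?_⟩
  · rintro q ⟨a1, a2, a3, a4, a5, a6⟩
    have hq := a1.prime.two_le
    refine ⟨a1.prime, a2.prime, a3, a4, a5.cls ⟨1, ?_⟩, a6.cls ⟨0, ?_⟩⟩
    · rw [Nat.cast_sub hq]
      ring
    · push_cast
      ring
  · intro p c hp hc hle
    have h3 := h1 _ (mem_ppsk hk hp hc hle)
    obtain ⟨c, rfl⟩ : ∃ c', c = c' + 1 := ⟨c - 1, by omega⟩
    have h4 : p ^ (c + 1) / p = p ^ c := by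
      rw [pow_succ, Nat.mul_div_cancel _ hp.pos]
    have h5 : c + 1 - 1 = c := by omega
    rw [h5]
    simp only [h4] at h3
    rcases h3 with h3 | ⟨h3, h6⟩ | ⟨h3, h6⟩
    · left
      exact h3.cls (by simp)
    · right
      left
      refine ⟨h3, h6.cls ⟨1, ?_⟩⟩
      rw [Nat.cast_sub (Nat.pow_le_pow_right hp.pos (by omega))]
      ring
    · right
      right
      have hc0 : c + 1 = 1 := by
        have h7 : p ^ (c + 1) = p ^ 1 := by rw [pow_one]; exact h3
        exact Nat.pow_right_injective hp.two_le h7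
      refine ⟨hc0, ?_⟩
      rw [h3] at h6
      rcases h6 with h6 | ⟨h6, h7⟩
      · exact Or.inl h6
      · exact Or.inr ⟨p - 2, by omega, h7⟩
  · rcases h2 with ⟨h2, h3⟩ | ⟨h2, h3, h4⟩ | ⟨h2, h3, h4, h5, h6, h7⟩
    · left
      refine ⟨h2, fun q hq => h3 q ?_ hq⟩
      have := hq.2.2.1
      omega
    · right
      left
      refine ⟨h2, h3.prime, fun q hq => h4 q ?_ hq⟩
      have := hq.2.2.1
      omega
    · right
      right
      exact ⟨h2, (k + 1) / 2, h3, h4.prime, h5.prime, h6.prime, h7⟩

lemma reverse_map (k : ℕ) (σ : ℕ → ℕ) : ((List.range' 1 k).map σ).reverse =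
    (List.range' 1 k).map (fun i => σ (k + 1 - i)) := by
  apply List.ext_getElem
  · simp
  · intro i h1 h2
    simp only [List.length_reverse, List.length_map, List.length_range'] at h1 h2
    rw [List.getElem_reverse, List.getElem_map, List.getElem_map, List.getElem_range',
      List.getElem_range']
    simp only [List.length_map, List.length_range']
    congr 1
    omega

/-- All weakly consecutive sequences of length at least 12, or their reversals, have the
standard structure. -/
theorem std_all : ∀ k, 12 ≤ k → ∀ σ : ℕ → ℕ, IsWCS k σ →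
    (∃ t E, Std k t (fun x => σ (x - t)) E) ∨
      (∃ t E, Std k t (fun x => σ (k + 1 - (x - t))) E) := by
  intro k
  induction k using Nat.strong_induction_on with
  | _ k ih =>
    intro hk σ h
    rcases Nat.lt_or_ge k 24 with hk1 | hk1
    · rcases search_std k hk1 hk _ (mem_search h (by omega)) with ⟨t, -, h1⟩ | ⟨t, -, h1⟩
      · obtain ⟨E, hE⟩ := h1.std hk1
        exact Or.inl ⟨t, E, hE⟩
      · rw [reverse_map] at h1
        obtain ⟨E, hE⟩ := h1.std hk1
        exact Or.inr ⟨t, E, hE⟩
    · obtain ⟨f, hf⟩ : ∃ f, f = k / 2 := ⟨_, rfl⟩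
      obtain ⟨r, hr1, hr2, hr3, hr4⟩ := h.class (m := 2) (by norm_num) (by omega)
      have hτ := h.slice (by norm_num) hr1 hr2 hr3 hr4
      rw [← hf] at hτ
      rcases ih f (by omega) (by omega) _ hτ with ⟨t', E, hE⟩ | ⟨t', E, hE⟩
      · left
        have hs : Slice k f (2 * t' + (2 - r)) t' (fun x => σ (x - (2 * t' + (2 - r))))
            (fun x => σ (r + 2 * (x - t' - 1)) / 2) := by
          refine ⟨by omega, by omega, by omega, SW.of_isWCS h (by omega) _, ?_, ?_⟩
          · intro x hx1 hx2
            show 2 ∣ σ (x - (2 * t' + (2 - r))) ↔ _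
            rw [hr4 _ (by omega) (by omega), Nat.ModEq]
            omega
          · intro y hy1 hy2
            have h1 : 2 ∣ σ (r + 2 * (y - t' - 1)) := by
              rw [hr4 _ (by omega) (by omega), Nat.ModEq]
              omega
            have h2 : 2 * y - (2 * t' + (2 - r)) = r + 2 * (y - t' - 1) := by omega
            show σ (2 * y - (2 * t' + (2 - r))) = 2 * (σ (r + 2 * (y - t' - 1)) / 2)
            rw [h2]
            omega
        obtain ⟨E', hE'⟩ := hs.step hE
        exact ⟨_, E', hE'⟩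
      · right
        obtain ⟨r', hr'⟩ : ∃ r', r' = k + 3 - 2 * f - r := ⟨_, rfl⟩
        have hs : Slice k f (2 * t' + (2 - r')) t'
            (fun x => σ (k + 1 - (x - (2 * t' + (2 - r')))))
            (fun x => σ (r + 2 * (f + 1 - (x - t') - 1)) / 2) := by
          refine ⟨by omega, by omega, by omega, SW.of_isWCS h.rev (by omega) _, ?_, ?_⟩
          · intro x hx1 hx2
            show 2 ∣ σ (k + 1 - (x - (2 * t' + (2 - r')))) ↔ _
            rw [hr4 _ (by omega) (by omega), Nat.ModEq]
            omega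
          · intro y hy1 hy2
            have h1 : 2 ∣ σ (r + 2 * (f + 1 - (y - t') - 1)) := by
              rw [hr4 _ (by omega) (by omega), Nat.ModEq]
              omega
            have h2 : k + 1 - (2 * y - (2 * t' + (2 - r'))) =
                r + 2 * (f + 1 - (y - t') - 1) := by omega
            show σ (k + 1 - (2 * y - (2 * t' + (2 - r')))) =
              2 * (σ (r + 2 * (f + 1 - (y - t') - 1)) / 2)
            rw [h2]
            omega
        obtain ⟨E', hE'⟩ := hs.step hE
        exact ⟨_, E', hE'⟩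

end Pool.Agent.Q58.WCS
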