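import Mathlib
import Pool.Agent.Q58.WCS.Search

/-!
# Weakly consecutive sequences: starting sequences, rules and derivations

The starting sequences and the rules of the problem, together with a fifth starting sequence which
is missing from the statement.
-/

set_option autoImplicit false

namespace Pool.Agent.Q58.WCS

open Pool.Agent.Results.MP_a4c3d5_co.SmallTerms

/-- The names of the starting sequences. The first four are those of the problem, the fifth one is
the starting sequence `twiceTwin` followed by a 1-inversion. -/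
inductive Start
  | consecutive
  | inversion
  | twiceTwin
  | sophie
  | twiceTwinInversion
  deriving DecidableEq

/-- The lengths for which a starting sequence is available. -/
def Start.Available (k : ℕ) : Start → Prop
  | .consecutive => True
  | .inversion => (k + 1).Prime
  | .twiceTwin => ∃ p : ℕ, p.Prime ∧ (p + 2).Prime ∧ (k = 2 * p ∨ k = 2 * p + 1)
  | .sophie => ∃ p : ℕ, p.Prime ∧ (p + 2).Prime ∧ (2 * p + 1).Prime ∧ k + 1 = 2 * p
  | .twiceTwinInversion => ∃ p : ℕ, p.Prime ∧ (p + 2).Prime ∧ (2 * p + 1).Prime ∧ k = 2 * p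

/-- The entries `seq k s 1, ..., seq k s k` of the starting sequences:
* `(1, 2, ..., k)`;
* `(2, 3, ..., k, 1)`;
* `(1, 2, ..., k)` with `2, 2 p` exchanged and `p, p + 2` exchanged, where `p = k / 2`;
* `(3, 4, ..., k, 2, 1)` with `p, p + 2` exchanged, where `p = (k + 1) / 2`;
* `(2, 3, ..., k, 1)` with `2, 2 p` exchanged and `p, p + 2` exchanged, where `p = k / 2`. -/
def Start.seq (k : ℕ) : Start → ℕ → ℕ
  | .consecutive, i => i
  | .inversion, i => if i < k then i + 1 else 1
  | .twiceTwin, i => Equiv.swap (k / 2) (k / 2 + 2) (Equiv.swap 2 (2 * (k / 2)) i)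
  | .sophie, i => Equiv.swap ((k + 1) / 2) ((k + 1) / 2 + 2)
      (if i + 2 ≤ k then i + 2 else k + 1 - i)
  | .twiceTwinInversion, i => Equiv.swap (k / 2) (k / 2 + 2)
      (Equiv.swap 2 (2 * (k / 2)) (if i < k then i + 1 else 1))

/-- The rules: Twin Prime Swap of `q` and `q + 2`, Prime Power Swap of `p ^ (c - 1)` and `p ^ c`,
and Trivial Reversal. -/
inductive Rule
  | twin (q : ℕ)
  | power (p c : ℕ)
  | reversal
  deriving DecidableEq

/-- The pair of entries exchanged by a swap. -/
def Rule.pair : Rule → Option (ℕ × ℕ)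
  | .twin q => some (q, q + 2)
  | .power p c => some (p ^ (c - 1), p ^ c)
  | .reversal => none

/-- The application of a rule to a sequence of length `k`. -/
def Rule.act (k : ℕ) : Rule → (ℕ → ℕ) → ℕ → ℕ
  | .twin q, f, i => Equiv.swap q (q + 2) (f i)
  | .power p c, f, i => Equiv.swap (p ^ (c - 1)) (p ^ c) (f i)
  | .reversal, f, i => f (k + 1 - i)

/-- The condition under which a rule may be applied to a sequence `f` of length `k` coming from the
starting sequence `s`. -/
def Rule.Allowed (k : ℕ) (s : Start) (f : ℕ → ℕ) : Rule → Prop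
  | .twin q => s = .sophie ∧ q.Prime ∧ (q + 2).Prime ∧ q + 2 ≤ k ∧ (k + 1) / 2 < q ∧
      ∀ i, 1 ≤ i → i ≤ k → (s.seq k i = q ∨ s.seq k i = q + 2) → f i = s.seq k i
  | .power p c => p.Prime ∧ 1 ≤ c ∧ p ^ c ≤ k ∧ k < p ^ c + p ^ (c - 1)
  | .reversal => True

/-- `Derives k s l f`: the sequence `f` of length `k` is obtained from the starting sequence `s` by
the rules in the list `l` (the rule applied last comes first), each applied when its condition
holds. -/
inductive Derives (k : ℕ) (s : Start) : List Rule → (ℕ → ℕ) → Prop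
  | start : s.Available k → Derives k s [] (s.seq k)
  | step {l : List Rule} {f : ℕ → ℕ} (r : Rule) : Derives k s l f → r.Allowed k s f →
      Derives k s (r :: l) (r.act k f)

/-- A derivation is reduced if no swap is applied twice and the reversal is applied at most once. -/
def Reduced (l : List Rule) : Prop :=
  (l.filterMap Rule.pair).Nodup ∧ l.count .reversal ≤ 1

instance (l : List Rule) : Decidable (Reduced l) := by
  unfold Reduced
  infer_instance

/-! ### Short sequences -/

/-- The final sequence. -/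
def fin (k : ℕ) (s : Start) : List Rule → ℕ → ℕ
  | [] => s.seq k
  | r :: l => r.act k (fin k s l)

/-- Checking availability. -/
def avP (k : ℕ) : Start → Prop
  | .consecutive => True
  | .inversion => pr23 (k + 1)
  | .twiceTwin => pr23 (k / 2) ∧ pr23 (k / 2 + 2)
  | .sophie => pr23 ((k + 1) / 2) ∧ pr23 ((k + 1) / 2 + 2) ∧ pr23 (2 * ((k + 1) / 2) + 1) ∧
      k + 1 = 2 * ((k + 1) / 2)
  | .twiceTwinInversion => pr23 (k / 2) ∧ pr23 (k / 2 + 2) ∧ pr23 (2 * (k / 2) + 1) ∧
      k = 2 * (k / 2)

instance (k : ℕ) (s : Start) : Decidable (avP k s) := by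
  cases s <;> unfold avP <;> infer_instance

lemma avP.available {k : ℕ} {s : Start} (h : avP k s) : s.Available k := by
  cases s
  · trivial
  · exact pr23.prime h
  · exact ⟨k / 2, h.1.prime, h.2.prime, by omega⟩
  · exact ⟨(k + 1) / 2, h.1.prime, h.2.1.prime, h.2.2.1.prime, h.2.2.2⟩
  · exact ⟨k / 2, h.1.prime, h.2.1.prime, h.2.2.1.prime, h.2.2.2⟩

/-- Checking the conditions of the rules. -/
def alP (k : ℕ) (s : Start) (f : ℕ → ℕ) : Rule → Prop
  | .twin q => s = .sophie ∧ pr23 q ∧ pr23 (q + 2) ∧ q + 2 ≤ k ∧ (k + 1) / 2 < q ∧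
      ∀ i < k + 1, 1 ≤ i → (s.seq k i = q ∨ s.seq k i = q + 2) → f i = s.seq k i
  | .power p c => pr23 p ∧ 1 ≤ c ∧ p ^ c ≤ k ∧ k < p ^ c + p ^ (c - 1)
  | .reversal => True

instance (k : ℕ) (s : Start) (f : ℕ → ℕ) (r : Rule) : Decidable (alP k s f r) := by
  cases r <;> unfold alP <;> infer_instance

lemma alP.allowed {k : ℕ} {s : Start} {f : ℕ → ℕ} {r : Rule} (h : alP k s f r) :
    r.Allowed k s f := by
  cases r
  · exact ⟨h.1, h.2.1.prime, h.2.2.1.prime, h.2.2.2.1, h.2.2.2.2.1, fun i h1 h2 =>
      h.2.2.2.2.2 i (by omega) h1⟩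
  · exact ⟨h.1.prime, h.2⟩
  · trivial

/-- Checking a derivation. -/
def valid (k : ℕ) (s : Start) : List Rule → Prop
  | [] => avP k s
  | r :: l => valid k s l ∧ alP k s (fin k s l) r

instance decValid (k : ℕ) (s : Start) : (l : List Rule) → Decidable (valid k s l)
  | [] => by
    unfold valid
    infer_instance
  | r :: l => by
    have := decValid k s l
    unfold valid
    infer_instance

lemma valid.derives {k : ℕ} {s : Start} : ∀ {l : List Rule}, valid k s l →
    Derives k s l (fin k s l)
  | [], h => Derives.start (avP.available h)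
  | r :: _, h => Derives.step r (valid.derives h.1) (alP.allowed h.2)

/-- Candidates for the rules, the twin swaps being applied first. -/
def cands (k : ℕ) : List Rule :=
  ([(2, 1), (2, 2), (2, 3), (2, 4), (3, 1), (3, 2), (5, 1), (7, 1), (11, 1), (13, 1), (17, 1),
    (19, 1), (23, 1)].filter (fun e : ℕ × ℕ => Nat.ble (e.1 ^ e.2) k &&
      Nat.ble (k + 1) (e.1 ^ e.2 + e.1 ^ (e.2 - 1)))).map (fun e => Rule.power e.1 e.2) ++
  ([3, 5, 11, 17].filter (fun q => Nat.ble (q + 2) k && Nat.ble ((k + 1) / 2 + 1) q)).map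
    (fun q => Rule.twin q)

/-- All sublists. -/
def subs : List Rule → List (List Rule)
  | [] => [[]]
  | r :: l => subs l ++ (subs l).map (fun m => r :: m)

/-- Candidates for derivations. -/
def candl (k : ℕ) : List (List Rule) :=
  subs (cands k) ++ (subs (cands k)).map (fun m => .reversal :: m)

/-- All starting sequences. -/
def starts : List Start := [.consecutive, .inversion, .twiceTwin, .sophie, .twiceTwinInversion]

lemma search_derives : ∀ k < 24, ∀ l ∈ search k, ∃ s ∈ starts, avP k s ∧ ∃ m ∈ candl k,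
    (∀ j < k, fin k s m (j + 1) = l.getD j 0) ∧ Reduced m ∧ valid k s m := by decide +kernel

end Pool.Agent.Q58.WCS
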