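import Mathlib
import Pool.Agent.Q58.WCS.Derive
import Pool.Agent.Q58.WCS.Step2

/-!
# Weakly consecutive sequences: products of disjoint swaps
-/

set_option autoImplicit false

namespace Pool.Agent.Q58.WCS

/-- The product of the swaps in a list, the last one being applied first. -/
def sws : List (ℕ × ℕ) → ℕ → ℕ
  | [], x => x
  | e :: E, x => Equiv.swap e.1 e.2 (sws E x)

/-- Disjoint pairs. -/
def Dj (e e' : ℕ × ℕ) : Prop := e.1 ≠ e'.1 ∧ e.1 ≠ e'.2 ∧ e.2 ≠ e'.1 ∧ e.2 ≠ e'.2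

lemma sws_append (E E' : List (ℕ × ℕ)) (x : ℕ) : sws (E ++ E') x = sws E (sws E' x) := by
  induction E with
  | nil => rfl
  | cons e E ih => simp only [List.cons_append, sws, ih]

lemma sws_notin {E : List (ℕ × ℕ)} {x : ℕ} (h : ∀ e ∈ E, x ≠ e.1 ∧ x ≠ e.2) : sws E x = x := by
  induction E with
  | nil => rfl
  | cons e E ih =>
    rw [sws, ih (fun e' he' => h e' (by simp [he']))]
    have := h e (by simp)
    exact Equiv.swap_apply_of_ne_of_ne this.1 this.2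

lemma sws_mem {E : List (ℕ × ℕ)} (hE : E.Pairwise Dj) {e : ℕ × ℕ} (he : e ∈ E) :
    sws E e.1 = e.2 ∧ sws E e.2 = e.1 := by
  induction E with
  | nil => simp at he
  | cons e' E ih =>
    rw [List.pairwise_cons] at hE
    rw [sws, sws]
    rcases List.mem_cons.1 he with rfl | he
    · rw [sws_notin (fun e' he' => ⟨(hE.1 e' he').1, (hE.1 e' he').2.1⟩),
        sws_notin (fun e' he' => ⟨(hE.1 e' he').2.2.1, (hE.1 e' he').2.2.2⟩)]
      exact ⟨Equiv.swap_apply_left _ _, Equiv.swap_apply_right _ _⟩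
    · obtain ⟨h1, h2⟩ := ih hE.2 he
      obtain ⟨d1, d2, d3, d4⟩ := hE.1 e he
      rw [h1, h2]
      exact ⟨Equiv.swap_apply_of_ne_of_ne d2.symm d4.symm,
        Equiv.swap_apply_of_ne_of_ne d1.symm d3.symm⟩

lemma sws_inj (E : List (ℕ × ℕ)) : Function.Injective (sws E) := by
  induction E with
  | nil => exact fun _ _ h => h
  | cons e E ih => exact (Equiv.injective _).comp ih

lemma sws_dvd {E : List (ℕ × ℕ)} {q : ℕ} (h : ∀ e ∈ E, (q ∣ e.1 ↔ q ∣ e.2)) (x : ℕ) :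
    q ∣ sws E x ↔ q ∣ x := by
  induction E with
  | nil => rfl
  | cons e E ih =>
    have h1 := ih (fun e' he' => h e' (by simp [he']))
    have h2 := h e (by simp)
    rw [sws, ← h1]
    by_cases h3 : sws E x = e.1
    · rw [h3, Equiv.swap_apply_left]
      exact h2.symm
    · by_cases h4 : sws E x = e.2
      · rw [h4, Equiv.swap_apply_right]
        exact h2
      · rw [Equiv.swap_apply_of_ne_of_ne h3 h4]

lemma sws_Icc {E : List (ℕ × ℕ)} {k : ℕ} (h : ∀ e ∈ E, (1 ≤ e.1 ∧ e.1 ≤ k) ∧ 1 ≤ e.2 ∧ e.2 ≤ k)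
    {x : ℕ} (h1 : 1 ≤ x) (h2 : x ≤ k) : 1 ≤ sws E x ∧ sws E x ≤ k := by
  induction E with
  | nil => exact ⟨h1, h2⟩
  | cons e E ih =>
    have h3 := ih (fun e' he' => h e' (by simp [he']))
    have h4 := h e (by simp)
    rw [sws]
    by_cases h5 : sws E x = e.1
    · rw [h5, Equiv.swap_apply_left]
      exact h4.2
    · by_cases h6 : sws E x = e.2
      · rw [h6, Equiv.swap_apply_right]
        exact h4.1
      · rw [Equiv.swap_apply_of_ne_of_ne h5 h6]
        exact h3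

/-- The pairs of the Prime Power Swaps. -/
def PP (k : ℕ) (e : ℕ × ℕ) : Prop :=
  ∃ p c : ℕ, p.Prime ∧ 1 ≤ c ∧ p ^ c ≤ k ∧ k < p ^ c + p ^ (c - 1) ∧ e = (p ^ (c - 1), p ^ c)

/-- Pairs of twin primes. -/
def TP (k : ℕ) (e : ℕ × ℕ) : Prop :=
  ∃ q : ℕ, q.Prime ∧ (q + 2).Prime ∧ k / 2 ≤ q ∧ q + 2 < k ∧ e = (q, q + 2)

/-- The pair of `2` and `2 q`. -/
def XP (k : ℕ) (e : ℕ × ℕ) : Prop :=
  ∃ q : ℕ, q.Prime ∧ (q + 2).Prime ∧ k / 2 = q ∧ e = (2, 2 * q)

/-- All pairs. -/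
def GP (k : ℕ) (e : ℕ × ℕ) : Prop := PP k e ∨ TP k e ∨ XP k e

lemma Dj.symm {e e' : ℕ × ℕ} (h : Dj e e') : Dj e' e :=
  ⟨h.1.symm, h.2.2.1.symm, h.2.1.symm, h.2.2.2.symm⟩

lemma PP_PP {k : ℕ} (hk : 12 ≤ k) {e e' : ℕ × ℕ} (h : PP k e) (h' : PP k e') (hne : e ≠ e') :
    Dj e e' := by
  obtain ⟨p, c, hp, hc, h1, h2, rfl⟩ := h
  obtain ⟨p', c', hp', hc', h1', h2', rfl⟩ := h'
  -- the prime powers determine the primes
  have key : ∀ a b : ℕ, 1 ≤ a → p ^ a = p' ^ b → p = p' := by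
    intro a b ha hab
    have h3 : p ∣ p' ^ b := hab ▸ dvd_pow_self p (by omega)
    exact (Nat.prime_dvd_prime_iff_eq hp hp').1 (hp.dvd_of_dvd_pow h3)
  have key' : ∀ a b : ℕ, 1 ≤ b → p ^ a = p' ^ b → p = p' := by
    intro a b hb hab
    have h3 : p' ∣ p ^ a := hab ▸ dvd_pow_self p' (by omega)
    exact ((Nat.prime_dvd_prime_iff_eq hp' hp).1 (hp'.dvd_of_dvd_pow h3)).symm
  -- the same prime gives the same pair
  have same : p ≠ p' := by
    rintro rfl
    apply hne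
    have hcc : c = c' := by
      rcases Nat.lt_trichotomy c c' with h3 | h3 | h3
      · exfalso
        have h4 : p ^ (c + 1) ≤ p ^ c' := Nat.pow_le_pow_right hp.pos h3
        have h5 : p ^ c * 2 ≤ p ^ (c + 1) := by
          rw [pow_succ]
          exact Nat.mul_le_mul_left _ hp.two_le
        have h6 : p ^ (c - 1) ≤ p ^ c := Nat.pow_le_pow_right hp.pos (by omega)
        omega
      · exact h3
      · exfalso
        have h4 : p ^ (c' + 1) ≤ p ^ c := Nat.pow_le_pow_right hp.pos h3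
        have h5 : p ^ c' * 2 ≤ p ^ (c' + 1) := by
          rw [pow_succ]
          exact Nat.mul_le_mul_left _ hp.two_le
        have h6 : p ^ (c' - 1) ≤ p ^ c' := Nat.pow_le_pow_right hp.pos (by omega)
        omega
    rw [hcc]
  refine ⟨?_, ?_, ?_, ?_⟩
  · intro h3
    simp only at h3
    rcases Nat.lt_or_ge 1 c with h4 | h4
    · exact same (key _ _ (by omega) h3)
    · rcases Nat.lt_or_ge 1 c' with h5 | h5
      · exact same (key' _ _ (by omega) h3)
      · have e1 : c = 1 := by omega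
        have e2 : c' = 1 := by omega
        subst e1
        subst e2
        simp only [pow_one, Nat.sub_self, pow_zero] at *
        omega
  · intro h3
    exact same (key' _ _ hc' h3)
  · intro h3
    exact same (key _ _ hc h3)
  · intro h3
    exact same (key _ _ hc h3)

lemma not_prime_sq_le {k q c p : ℕ} (hk : 12 ≤ k) (hq : q.Prime) (hp : p.Prime)
    (h1 : p ^ c ≤ k) (h2 : k / 2 ≤ q) (hc : 2 ≤ c) (h3 : p ^ (c - 1) = q) : False := by
  have h4 : p ^ c = p * q := by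
    rw [← h3, ← pow_succ']
    congr 1
    omega
  have h5 : q ∣ p := by
    have h6 : p ∣ q := by
      rw [← h3]
      exact dvd_pow_self p (by omega)
    rw [(Nat.prime_dvd_prime_iff_eq hp hq).1 h6]
  have h6 : q ≤ p := Nat.le_of_dvd hp.pos h5
  have h7 : q * q ≤ p * q := Nat.mul_le_mul_right _ h6
  have h8 : 3 * q ≤ q * q := Nat.mul_le_mul_right _ (by omega)
  omega

lemma PP_TP {k : ℕ} (hk : 12 ≤ k) {e e' : ℕ × ℕ} (h : PP k e) (h' : TP k e') : Dj e e' := by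
  obtain ⟨p, c, hp, hc, h1, h2, rfl⟩ := h
  obtain ⟨q, hq, hq2, h3, h4, rfl⟩ := h'
  have hA : ∀ r : ℕ, r.Prime → k / 2 ≤ r → p ^ (c - 1) ≠ r := by
    intro r hr hr1 hr2
    rcases Nat.lt_or_ge 1 c with h5 | h5
    · exact not_prime_sq_le hk hr hp h1 hr1 h5 hr2
    · have e1 : c = 1 := by omega
      subst e1
      simp at hr2
      omega
  have hB : ∀ r : ℕ, r.Prime → r < k → p ^ c ≠ r := by
    intro r hr hr1 hr2
    have h5 : c = 1 := by
      have h6 : (p ^ c).Prime := hr2 ▸ hr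
      exact (Nat.Prime.eq_one_of_pow h6)
    subst h5
    simp at hr2 h2
    omega
  exact ⟨hA q hq h3, hA (q + 2) hq2 (by omega), hB q hq (by omega), hB (q + 2) hq2 h4⟩

lemma PP_XP {k : ℕ} (hk : 12 ≤ k) {e e' : ℕ × ℕ} (h : PP k e) (h' : XP k e') : Dj e e' := by
  obtain ⟨p, c, hp, hc, h1, h2, rfl⟩ := h
  obtain ⟨q, hq, hq2, h3, rfl⟩ := h'
  have hqo : q % 2 = 1 := by
    rcases hq.eq_two_or_odd with h4 | h4
    · omega
    · exact h4
  have hA : p ^ c ≠ 2 := by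
    intro h4
    have h5 : p ^ (c - 1) ≤ p ^ c := Nat.pow_le_pow_right hp.pos (by omega)
    omega
  have hB : ∀ a : ℕ, p ^ a ≠ 2 * q := by
    intro a h4
    have h5 : 2 ∣ p ^ a := ⟨q, h4⟩
    have h6 : q ∣ p ^ a := ⟨2, by rw [h4]; ring⟩
    have h7 := (Nat.prime_dvd_prime_iff_eq Nat.prime_two hp).1 (Nat.prime_two.dvd_of_dvd_pow h5)
    have h8 := (Nat.prime_dvd_prime_iff_eq hq hp).1 (hq.dvd_of_dvd_pow h6)
    omega
  have hC : p ^ (c - 1) ≠ 2 := by
    intro h4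
    have h5 : p ^ c = p * 2 := by
      rw [← h4, ← pow_succ']
      congr 1
      omega
    have h6 : 1 < c := by
      by_contra hcon
      have : c = 1 := by omega
      subst this
      simp at h4
    have h7 : p ∣ 2 := by
      rw [← h4]
      exact dvd_pow_self p (by omega)
    have h8 := Nat.le_of_dvd (by norm_num) h7
    omega
  exact ⟨hC, hB _, hA, hB _⟩

lemma TP_TP {k : ℕ} (hk : 12 ≤ k) {e e' : ℕ × ℕ} (h : TP k e) (h' : TP k e') (hne : e ≠ e') :
    Dj e e' := by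
  obtain ⟨q, hq, hq2, h3, h4, rfl⟩ := h
  obtain ⟨q', hq', hq2', h3', h4', rfl⟩ := h'
  have h5 : q ≠ q' := by
    rintro rfl
    exact hne rfl
  refine ⟨h5, ?_, ?_, ?_⟩
  · simp only
    rintro rfl
    exact three_primes (by omega) hq' hq hq2
  · simp only
    intro h6
    subst h6
    exact three_primes (by omega) hq hq' hq2'
  · simp only
    omega

lemma TP_XP {k : ℕ} (hk : 12 ≤ k) {e e' : ℕ × ℕ} (h : TP k e) (h' : XP k e') : Dj e e' := by
  obtain ⟨q, hq, hq2, h3, h4, rfl⟩ := h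
  obtain ⟨q', hq', hq2', h3', rfl⟩ := h'
  have hqo : q % 2 = 1 := by
    rcases hq.eq_two_or_odd with h4 | h4
    · omega
    · exact h4
  refine ⟨?_, ?_, ?_, ?_⟩ <;> simp only <;> omega

lemma XP_XP {k : ℕ} {e e' : ℕ × ℕ} (h : XP k e) (h' : XP k e') : e = e' := by
  obtain ⟨q, hq, hq2, h3, rfl⟩ := h
  obtain ⟨q', hq', hq2', h3', rfl⟩ := h'
  rw [← h3, ← h3']

lemma GP.dj {k : ℕ} (hk : 12 ≤ k) {e e' : ℕ × ℕ} (h : GP k e) (h' : GP k e') (hne : e ≠ e') :
    Dj e e' := by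
  rcases h with h | h | h <;> rcases h' with h' | h' | h'
  · exact PP_PP hk h h' hne
  · exact PP_TP hk h h'
  · exact PP_XP hk h h'
  · exact (PP_TP hk h' h).symm
  · exact TP_TP hk h h' hne
  · exact TP_XP hk h h'
  · exact (PP_XP hk h' h).symm
  · exact (TP_XP hk h' h).symm
  · exact (hne (XP_XP h h')).elim

lemma GP.bounds {k : ℕ} (hk : 12 ≤ k) {e : ℕ × ℕ} (h : GP k e) :
    1 ≤ e.1 ∧ e.1 < e.2 ∧ e.2 ≤ k := by
  rcases h with ⟨p, c, hp, hc, h1, h2, rfl⟩ | ⟨q, hq, hq2, h3, h4, rfl⟩ | ⟨q, hq, hq2, h3, rfl⟩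
  · refine ⟨Nat.one_le_pow _ _ hp.pos, ?_, h1⟩
    exact Nat.pow_lt_pow_right hp.one_lt (by omega)
  · exact ⟨hq.pos, by simp, by simp only; omega⟩
  · refine ⟨by norm_num, ?_, ?_⟩ <;> simp only <;> omega

lemma GP.pairwise {k : ℕ} (hk : 12 ≤ k) {E : List (ℕ × ℕ)} (hE : E.Nodup)
    (h : ∀ e ∈ E, GP k e) : E.Pairwise Dj :=
  hE.pairwise_of_forall_ne (fun e he e' he' hne => (h e he).dj hk (h e' he') hne)

end Pool.Agent.Q58.WCS
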