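import Mathlib
import Pool.Agent.Q58.WCS.Swaps

/-!
# Weakly consecutive sequences: the sequence is determined by its structure
-/

set_option autoImplicit false

namespace Pool.Agent.Q58.WCS

variable {k t : ℕ} {v : ℕ → ℕ} {D : ℕ → Prop}

/-- The base sequences `(t + 1, t + 2, ..., k, t, ..., 1)`. -/
def base (t k i : ℕ) : ℕ := if i + t ≤ k then i + t else k + 1 - i

lemma base_inj {i j : ℕ} (h1 : 1 ≤ i) (h2 : i ≤ k) (h3 : 1 ≤ j) (h4 : j ≤ k)
    (h : base t k i = base t k j) : i = j := by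
  unfold base at h
  split_ifs at h <;> omega

lemma base_bounds {i : ℕ} (h1 : 1 ≤ i) (h2 : i ≤ k) : 1 ≤ base t k i ∧ base t k i ≤ k := by
  unfold base
  split_ifs <;> omega

lemma base_surj (ht : t ≤ k) {b : ℕ} (h1 : 1 ≤ b) (h2 : b ≤ k) :
    ∃ i, 1 ≤ i ∧ i ≤ k ∧ base t k i = b := by
  rcases Nat.lt_or_ge t b with h | h
  · refine ⟨b - t, by omega, by omega, ?_⟩
    unfold base
    rw [if_pos (by omega)]
    omega
  · refine ⟨k + 1 - b, by omega, by omega, ?_⟩
    unfold base
    rw [if_neg (by omega)]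
    omega

lemma sum_perm {g : ℕ → ℕ} (h1 : ∀ i, 1 ≤ i → i ≤ k → 1 ≤ g i ∧ g i ≤ k)
    (h2 : ∀ i j, 1 ≤ i → i ≤ k → 1 ≤ j → j ≤ k → g i = g j → i = j) :
    ∑ i ∈ Finset.Icc 1 k, g i = ∑ i ∈ Finset.Icc 1 k, i := by
  have hinj : Set.InjOn g (Finset.Icc 1 k : Finset ℕ) := by
    intro a ha b hb hab
    rw [Finset.mem_coe, Finset.mem_Icc] at ha hb
    exact h2 a b ha.1 ha.2 hb.1 hb.2 hab
  have himg : (Finset.Icc 1 k).image g = Finset.Icc 1 k := by
    apply Finset.eq_of_subset_of_card_le
    · intro x hx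
      rw [Finset.mem_image] at hx
      obtain ⟨i, hi, rfl⟩ := hx
      rw [Finset.mem_Icc] at hi ⊢
      exact h1 i hi.1 hi.2
    · rw [Finset.card_image_of_injOn hinj]
  rw [← Finset.sum_image (f := fun x => x) hinj, himg]

lemma eq_of_le_perm {g h : ℕ → ℕ} (hg1 : ∀ i, 1 ≤ i → i ≤ k → 1 ≤ g i ∧ g i ≤ k)
    (hg2 : ∀ i j, 1 ≤ i → i ≤ k → 1 ≤ j → j ≤ k → g i = g j → i = j)
    (hh1 : ∀ i, 1 ≤ i → i ≤ k → 1 ≤ h i ∧ h i ≤ k)
    (hh2 : ∀ i j, 1 ≤ i → i ≤ k → 1 ≤ j → j ≤ k → h i = h j → i = j)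
    (hle : ∀ i, 1 ≤ i → i ≤ k → g i ≤ h i) : ∀ i, 1 ≤ i → i ≤ k → g i = h i := by
  have h1 : ∑ i ∈ Finset.Icc 1 k, g i = ∑ i ∈ Finset.Icc 1 k, h i := by
    rw [sum_perm hg1 hg2, sum_perm hh1 hh2]
  have h2 := (Finset.sum_eq_sum_iff_of_le (s := Finset.Icc 1 k) (f := g) (g := h) (by
    intro i hi
    rw [Finset.mem_Icc] at hi
    exact hle i hi.1 hi.2)).1 h1
  intro i hi1 hi2
  exact h2 i (Finset.mem_Icc.2 ⟨hi1, hi2⟩)

lemma Std.t_le (hS : Std k t v D) : t ≤ 2 := by
  rcases hS.typ with h | h | h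
  · have := h.1
    omega
  · have := h.1
    omega
  · have := h.1
    omega

lemma sophie_mod {P : ℕ} (hk : 12 ≤ k) (h1 : k + 1 = 2 * P) (h2 : P.Prime) (h3 : (P + 2).Prime) :
    k % 3 = 0 := by
  have e1 : P % 3 ≠ 0 := by
    intro h
    have := (Nat.prime_dvd_prime_iff_eq Nat.prime_three h2).1 (Nat.dvd_of_mod_eq_zero h)
    omega
  have e2 : P % 3 ≠ 1 := by
    intro h
    have := (Nat.prime_dvd_prime_iff_eq Nat.prime_three h3).1 (Nat.dvd_of_mod_eq_zero (by omega))
    omega
  omega

lemma Std.not_prime (hk : 24 ≤ k) (hS : Std k t v D) (ht : t ≠ 0) : ¬ k.Prime := by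
  intro hkp
  rcases hS.typ with h | ⟨-, h, -⟩ | ⟨-, P, h1, h2, h3, -, -⟩
  · exact ht h.1
  · rcases hkp.eq_two_or_odd with h4 | h4
    · omega
    · rcases h.eq_two_or_odd with h5 | h5
      · omega
      · omega
  · have h4 := sophie_mod (by omega) h1 h2 h3
    have := (Nat.prime_dvd_prime_iff_eq Nat.prime_three hkp).1 (Nat.dvd_of_mod_eq_zero h4)
    omega

lemma Std.tw_lt (hk : 24 ≤ k) (hS : Std k t v D) {q : ℕ} (hq : D q) : q + 2 < k := by
  obtain ⟨h1, h2, h3, h4, -, -⟩ := hS.tw q hq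
  rcases Nat.lt_or_ge (q + 2) k with h5 | h5
  · exact h5
  · exfalso
    have h6 : k = q + 2 := by omega
    rcases hS.typ with ⟨h7, h8⟩ | ⟨h7, -, h8⟩ | ⟨h7, -⟩
    · have := h8 q hq
      omega
    · have := h8 q hq
      omega
    · exact hS.not_prime hk (by omega) (h6 ▸ h2)

lemma Std.tw_odd (hk : 24 ≤ k) (hS : Std k t v D) {q : ℕ} (hq : D q) : q % 2 = 1 := by
  obtain ⟨h1, h2, h3, h4, -, -⟩ := hS.tw q hq
  rcases h1.eq_two_or_odd with h5 | h5
  · omega
  · exact h5

/-- The exchanged pairs. -/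
def GB (k t : ℕ) (v : ℕ → ℕ) (D : ℕ → Prop) (e : ℕ × ℕ) : Prop :=
  (∃ p c : ℕ, p.Prime ∧ 1 ≤ c ∧ p ^ c ≤ k ∧ k < p ^ c + p ^ (c - 1) ∧ ¬ Cls k t v (p ^ c) 0 ∧
    e = (p ^ (c - 1), p ^ c)) ∨ (∃ q, D q ∧ e = (q, q + 2)) ∨
    (∃ q, D q ∧ k / 2 = q ∧ e = (2, 2 * q))

lemma GB.gp (hk : 24 ≤ k) (hS : Std k t v D) {e : ℕ × ℕ} (h : GB k t v D e) : GP k e := by
  rcases h with ⟨p, c, h1, h2, h3, h4, -, h5⟩ | ⟨q, h1, h2⟩ | ⟨q, h1, h2, h3⟩
  · exact Or.inl ⟨p, c, h1, h2, h3, h4, h5⟩
  · obtain ⟨h3, h4, h5, h6, -⟩ := hS.tw q h1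
    exact Or.inr (Or.inl ⟨q, h3, h4, h6, hS.tw_lt hk h1, h2⟩)
  · obtain ⟨h4, h5, -⟩ := hS.tw q h1
    exact Or.inr (Or.inr ⟨q, h4, h5, h2, h3⟩)

lemma cls_two {q : ℕ} {a : ℤ} (hq : 1 ≤ q) (hqk : q ≤ k) (h0 : Cls k t v q 0)
    (ha : Cls k t v q a) : (q : ℤ) ∣ a := by
  obtain ⟨x, hx1, hx2, hx3⟩ : ∃ x, t + 1 ≤ x ∧ x ≤ t + q ∧ q ∣ x := by
    refine ⟨q * ((t + q) / q), ?_, Nat.mul_div_le _ _, dvd_mul_right _ _⟩
    have h1 := Nat.div_add_mod (t + q) q
    have h2 := Nat.mod_lt (t + q) hq
    omega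
  have h1 : q ∣ v x := (h0 x hx1 (by omega)).2 (by
    rw [sub_zero]
    exact_mod_cast hx3)
  have h2 := (ha x hx1 (by omega)).1 h1
  have h3 : (q : ℤ) ∣ (x : ℤ) := by exact_mod_cast hx3
  have h4 : a = x - (x - a) := by ring
  rw [h4]
  exact dvd_sub h3 h2

lemma GB.dvd_iff (hk : 24 ≤ k) (hS : Std k t v D) {e : ℕ × ℕ} (h : GB k t v D e) {p c : ℕ}
    (hp : p.Prime) (hc : 1 ≤ c) (hpc : p ^ c ≤ k) (hg : Cls k t v (p ^ c) 0) :
    p ^ c ∣ e.1 ↔ p ^ c ∣ e.2 := by
  have hne : p ^ c ≠ 1 := by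
    have := Nat.one_lt_pow (show c ≠ 0 by omega) hp.one_lt
    omega
  -- no good prime power divides an exchanged twin prime
  have htw : ∀ q, D q → ¬ p ^ c ∣ q ∧ ¬ p ^ c ∣ q + 2 := by
    intro q hq
    obtain ⟨h1, h2, h3, h4, h5, h6⟩ := hS.tw q hq
    constructor
    · intro h7
      rcases (Nat.dvd_prime h1).1 h7 with h8 | h8
      · exact hne h8
      · rw [h8] at hg
        have h9 := cls_two (by omega) (by omega) hg h5
        have h10 : q ∣ 2 := by exact_mod_cast h9
        have := Nat.le_of_dvd (by norm_num) h10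
        omega
    · intro h7
      rcases (Nat.dvd_prime h2).1 h7 with h8 | h8
      · exact hne h8
      · rw [h8] at hg
        have h9 := cls_two (by omega) (by omega) hg h6
        rw [dvd_neg] at h9
        have h10 : q + 2 ∣ 2 := by exact_mod_cast h9
        have := Nat.le_of_dvd (by norm_num) h10
        omega
  rcases h with ⟨l, m, h1, h2, h3, h4, h5, rfl⟩ | ⟨q, h1, rfl⟩ | ⟨q, h1, h2, rfl⟩
  · simp only
    by_cases hpl : p = l
    · subst hpl
      rw [Nat.pow_dvd_pow_iff_le_right hp.one_lt, Nat.pow_dvd_pow_iff_le_right hp.one_lt]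
      have hcm : c ≠ m := by
        rintro rfl
        exact h5 hg
      omega
    · have h6 : ∀ n, ¬ p ^ c ∣ l ^ n := by
        intro n h7
        have h8 : p ∣ l ^ n := (dvd_pow_self p (by omega)).trans h7
        exact hpl ((Nat.prime_dvd_prime_iff_eq hp h1).1 (hp.dvd_of_dvd_pow h8))
      exact ⟨fun h7 => (h6 _ h7).elim, fun h7 => (h6 _ h7).elim⟩
  · exact ⟨fun h7 => ((htw q h1).1 h7).elim, fun h7 => ((htw q h1).2 h7).elim⟩
  · simp only
    constructor
    · intro h3
      exact Dvd.dvd.mul_right h3 q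
    · intro h3
      have hqo := hS.tw_odd hk h1
      by_cases hp2 : p = 2
      · subst hp2
        rcases Nat.lt_or_ge c 2 with h4 | h4
        · have : c = 1 := by omega
          subst this
          norm_num
        · exfalso
          have h5 : 2 ^ 2 ∣ 2 * q := (Nat.pow_dvd_pow 2 h4).trans h3
          omega
      · exfalso
        have hco : (p ^ c).Coprime 2 :=
          Nat.Coprime.pow_left c ((Nat.coprime_primes hp Nat.prime_two).2 hp2)
        exact (htw q h1).1 (hco.dvd_of_dvd_mul_left h3)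

/-- The sequence is determined by its structure. -/
theorem ident (hk : 24 ≤ k) (hv : SW k t v) (hS : Std k t v D) {E : List (ℕ × ℕ)}
    (hE : E.Nodup) (h1 : ∀ e ∈ E, GB k t v D e)
    (h2 : ∀ p c, p.Prime → 1 ≤ c → p ^ c ≤ k → k < p ^ c + p ^ (c - 1) → ¬ Cls k t v (p ^ c) 0 →
      (p ^ (c - 1), p ^ c) ∈ E)
    (h3 : ∀ q, D q → (q, q + 2) ∈ E) (h4 : ∀ q, D q → k / 2 = q → (2, 2 * q) ∈ E) :
    ∀ i, 1 ≤ i → i ≤ k → sws E (base t k i) = v (i + t) := by
  have ht := hS.t_le
  have hGP : ∀ e ∈ E, GP k e := fun e he => (h1 e he).gp hk hS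
  have hDj := GP.pairwise (by omega) hE hGP
  have hb : ∀ i, 1 ≤ i → i ≤ k → 1 ≤ sws E (base t k i) ∧ sws E (base t k i) ≤ k := by
    intro i hi1 hi2
    have h5 := base_bounds (t := t) hi1 hi2
    refine sws_Icc ?_ h5.1 h5.2
    intro e he
    have := (hGP e he).bounds (by omega)
    omega
  have hback : ∀ e ∈ E, ∀ x, sws E x = e.2 → x = e.1 := by
    intro e he x hx
    apply sws_inj E
    rw [hx, (sws_mem hDj he).1]
  have hback' : ∀ e ∈ E, ∀ x, sws E x = e.1 → x = e.2 := by
    intro e he x hx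
    apply sws_inj E
    rw [hx, (sws_mem hDj he).2]
  have hgen : ∀ i, base t k i ≤ k → 2 < base t k i → base t k i = i + t := by
    intro i _ h5
    unfold base at h5 ⊢
    split_ifs at h5 ⊢ with h6
    · rfl
    · omega
  apply eq_of_le_perm (k := k)
  · exact hb
  · intro i j hi1 hi2 hj1 hj2 hij
    exact base_inj hi1 hi2 hj1 hj2 (sws_inj E hij)
  · intro i hi1 hi2
    exact hv.bounds (by omega) (by omega)
  · intro i j hi1 hi2 hj1 hj2 hij
    have := hv.inj (by omega) (by omega) (by omega) (by omega) hij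
    omega
  · intro i hi1 hi2
    have hvb := hv.bounds (x := i + t) (by omega) (by omega)
    have hNb := hb i hi1 hi2
    have hbb := base_bounds (t := t) hi1 hi2
    apply Nat.le_of_dvd hvb.1
    rw [Nat.dvd_iff_prime_pow_dvd_dvd]
    intro p c hp hpc
    rcases Nat.eq_zero_or_pos c with hc | hc
    · rw [hc, pow_zero]
      exact one_dvd _
    have hle : p ^ c ≤ k := (Nat.le_of_dvd hNb.1 hpc).trans hNb.2
    by_cases hg : Cls k t v (p ^ c) 0
    · -- good prime powers
      have h5 : p ^ c ∣ base t k i :=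
        (sws_dvd (fun e he => (h1 e he).dvd_iff hk hS hp hc hle hg) _).1 hpc
      refine (hg _ (by omega) (by omega)).2 ?_
      rw [sub_zero]
      have h6 : p ^ c ∣ i + t := by
        unfold base at h5
        split_ifs at h5 with h7
        · exact h5
        · have h8 : 2 ≤ p ^ c := by
            have := Nat.one_lt_pow (show c ≠ 0 by omega) hp.one_lt
            omega
          have h9 := Nat.le_of_dvd (by omega) h5
          have h10 : t = 2 := by omega
          have h11 : i + 1 = k := by omega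
          have h12 : p ^ c = 2 := by omega
          rw [h12]
          rcases hS.typ with h13 | h13 | ⟨-, P, h13, -⟩
          · have := h13.1
            omega
          · have := h13.1
            omega
          · omega
      exact_mod_cast h6
    rcases hS.cls p c hp hc hle with h5 | ⟨h5, h6⟩ | ⟨rfl, h5 | ⟨q, rfl, h5⟩⟩
    · exact (hg h5).elim
    · -- free prime powers
      have h7 := h2 p c hp hc hle h5 hg
      have h8 : sws E (base t k i) = p ^ c := by
        obtain ⟨d, hd⟩ := hpc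
        have h9 : d < 2 := by
          by_contra hcon
          push Not at hcon
          have h10 : p ^ c * 2 ≤ p ^ c * d := Nat.mul_le_mul_left _ hcon
          have h11 : p ^ (c - 1) ≤ p ^ c := Nat.pow_le_pow_right hp.pos (by omega)
          omega
        have h10 : d ≠ 0 := by
          rintro rfl
          omega
        have h11 : d = 1 := by omega
        rw [hd, h11, Nat.mul_one]
      have h9 := hback _ h7 _ h8
      simp only at h9
      refine (h6 _ (by omega) (by omega)).2 ?_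
      have h10 : i + t = p ^ (c - 1) := by
        rw [← h9]
        unfold base at h9 ⊢
        split_ifs at h9 ⊢ with h11
        · rfl
        · exfalso
          have h12 : p ^ (c - 1) ≤ 2 := by omega
          rcases Nat.lt_or_ge 1 c with h13 | h13
          · have h14 : p ∣ p ^ (c - 1) := dvd_pow_self p (by omega)
            have h15 := Nat.le_of_dvd (by omega) h14
            have h16 : p ^ c = p * p ^ (c - 1) := by
              rw [← pow_succ']
              congr 1
              omega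
            have h17 : p * p ^ (c - 1) ≤ 2 * 2 := Nat.mul_le_mul (by omega) h12
            omega
          · have h14 : c = 1 := by omega
            subst h14
            simp only [pow_one, Nat.sub_self, pow_zero] at h5 hle
            have h15 : p = k := by omega
            exact hS.not_prime hk (by omega) (h15 ▸ hp)
      rw [← h10]
      simp
    · -- the smaller one of exchanged twins
      rw [pow_one] at hpc hle ⊢
      obtain ⟨a1, a2, a3, a4, a5, a6⟩ := hS.tw p h5
      refine (a5 _ (by omega) (by omega)).2 ?_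
      obtain ⟨d, hd⟩ := hpc
      have hd3 : d < 3 := by
        by_contra hcon
        push Not at hcon
        have : p * 3 ≤ p * d := Nat.mul_le_mul_left _ hcon
        omega
      have hd0 : d ≠ 0 := by
        rintro rfl
        omega
      rcases (show d = 1 ∨ d = 2 by omega) with rfl | rfl
      · rw [Nat.mul_one] at hd
        have h6 := hback' _ (h3 p h5) _ hd
        simp only at h6
        have h7 := hgen i hbb.2 (by omega)
        refine ⟨1, ?_⟩
        have h8 : ((i + t : ℕ) : ℤ) = ((p + 2 : ℕ) : ℤ) := by rw [← h7, h6]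
        rw [h8]
        push_cast
        ring
      · have h6 : k / 2 = p := by omega
        have h7 := hback _ (h4 p h5 h6) (base t k i) (by
          simp only
          rw [hd]
          ring)
        simp only at h7
        have h8 : t ≤ 1 := by
          rcases hS.typ with h9 | h9 | ⟨-, P, h9, h10, -⟩
          · have := h9.1
            omega
          · have := h9.1
            omega
          · exfalso
            have e1 := hS.tw_odd hk h5
            rcases h10.eq_two_or_odd with h11 | h11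
            · omega
            · omega
        have h9 : i + t = 2 := by
          unfold base at h7
          split_ifs at h7 with h10
          · exact h7
          · omega
        rw [h9]
        simp
    · -- the larger one of exchanged twins
      rw [pow_one] at hpc hle ⊢
      obtain ⟨a1, a2, a3, a4, a5, a6⟩ := hS.tw q h5
      refine (a6 _ (by omega) (by omega)).2 ?_
      obtain ⟨d, hd⟩ := hpc
      have hd3 : d < 2 := by
        by_contra hcon
        push Not at hcon
        have : (q + 2) * 2 ≤ (q + 2) * d := Nat.mul_le_mul_left _ hcon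
        omega
      have hd0 : d ≠ 0 := by
        rintro rfl
        omega
      have hd1 : d = 1 := by omega
      subst hd1
      rw [Nat.mul_one] at hd
      have h6 := hback _ (h3 q h5) _ hd
      simp only at h6
      have h7 := hgen i hbb.2 (by omega)
      refine ⟨1, ?_⟩
      have h8 : ((i + t : ℕ) : ℤ) = ((q : ℕ) : ℤ) := by rw [← h7, h6]
      rw [h8]
      push_cast
      ring

end Pool.Agent.Q58.WCS
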