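import Mathlib
import Pool.Agent.Q58.WCS.All
import Pool.Agent.Q58.WCS.Ident

/-!
# Weakly consecutive sequences: every sequence has a derivation
-/

set_option autoImplicit false

namespace Pool.Agent.Q58.WCS

open Pool.Agent.Results.MP_a4c3d5_co.SmallTerms

variable {k t : ℕ} {v : ℕ → ℕ} {D : ℕ → Prop}

/-- The offset of a starting sequence. -/
def Start.off : Start → ℕ
  | .consecutive => 0
  | .inversion => 1
  | .twiceTwin => 0
  | .sophie => 2
  | .twiceTwinInversion => 1

/-- The pairs exchanged in a starting sequence. -/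
def Start.ex (k : ℕ) : Start → List (ℕ × ℕ)
  | .consecutive => []
  | .inversion => []
  | .twiceTwin => [(k / 2, k / 2 + 2), (2, 2 * (k / 2))]
  | .sophie => [((k + 1) / 2, (k + 1) / 2 + 2)]
  | .twiceTwinInversion => [(k / 2, k / 2 + 2), (2, 2 * (k / 2))]

lemma Start.seq_eq (s : Start) {i : ℕ} (h1 : 1 ≤ i) (h2 : i ≤ k) :
    s.seq k i = sws (s.ex k) (base s.off k i) := by
  have e0 : base 0 k i = i := by
    unfold base
    split_ifs <;> omega
  have e1 : base 1 k i = if i < k then i + 1 else 1 := by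
    unfold base
    split_ifs <;> omega
  cases s
  · show i = base 0 k i
    rw [e0]
  · show (if i < k then i + 1 else 1) = base 1 k i
    rw [e1]
  · show Equiv.swap (k / 2) (k / 2 + 2) (Equiv.swap 2 (2 * (k / 2)) i) =
      Equiv.swap (k / 2) (k / 2 + 2) (Equiv.swap 2 (2 * (k / 2)) (base 0 k i))
    rw [e0]
  · rfl
  · show Equiv.swap (k / 2) (k / 2 + 2) (Equiv.swap 2 (2 * (k / 2)) (if i < k then i + 1 else 1)) =
      Equiv.swap (k / 2) (k / 2 + 2) (Equiv.swap 2 (2 * (k / 2)) (base 1 k i))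
    rw [e1]

/-- The part of the condition of a swap which does not depend on the sequence. -/
def SA (k : ℕ) (s : Start) : Rule → Prop
  | .twin q => s = .sophie ∧ q.Prime ∧ (q + 2).Prime ∧ q + 2 ≤ k ∧ (k + 1) / 2 < q
  | .power p c => p.Prime ∧ 1 ≤ c ∧ p ^ c ≤ k ∧ k < p ^ c + p ^ (c - 1)
  | .reversal => False

lemma derives_static {s : Start} (hs : s.Available k) : ∀ {l : List Rule},
    (∀ r ∈ l, SA k s r) → (l.filterMap Rule.pair).Pairwise Dj →
    Derives k s l (fun i => sws (l.filterMap Rule.pair) (s.seq k i))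
  | [], _, _ => Derives.start hs
  | r :: l, h, hl => by
    have hr := h r (by simp)
    have hl' : (l.filterMap Rule.pair).Pairwise Dj := by
      rw [List.filterMap_cons] at hl
      split at hl
      · exact hl
      · exact hl.of_cons
    have ih := derives_static hs (fun r' hr' => h r' (by simp [hr'])) hl'
    cases r with
    | twin q =>
      obtain ⟨a1, a2, a3, a4, a5⟩ := hr
      have hl2 : ((q, q + 2) :: l.filterMap Rule.pair).Pairwise Dj := hl
      rw [List.pairwise_cons] at hl2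
      refine Derives.step (.twin q) ih ⟨a1, a2, a3, a4, a5, ?_⟩
      intro i _ _ h3
      show sws (l.filterMap Rule.pair) (s.seq k i) = s.seq k i
      apply sws_notin
      intro e he
      have h4 := hl2.1 e he
      rcases h3 with h3 | h3
      · rw [h3]
        exact ⟨h4.1, h4.2.1⟩
      · rw [h3]
        exact ⟨h4.2.2.1, h4.2.2.2⟩
    | power p c => exact Derives.step (.power p c) ih hr
    | reversal => exact hr.elim

lemma exists_rules {s : Start} : ∀ L : List (ℕ × ℕ),
    (∀ e ∈ L, ∃ r : Rule, r.pair = some e ∧ SA k s r) →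
    ∃ l : List Rule, l.filterMap Rule.pair = L ∧ ∀ r ∈ l, SA k s r
  | [], _ => ⟨[], rfl, by simp⟩
  | e :: L, h => by
    obtain ⟨r, hr1, hr2⟩ := h e (by simp)
    obtain ⟨l, hl1, hl2⟩ := exists_rules L (fun e' he' => h e' (by simp [he']))
    refine ⟨r :: l, ?_, ?_⟩
    · rw [List.filterMap_cons, hr1, hl1]
    · intro r' hr'
      rcases List.mem_cons.1 hr' with rfl | h1
      · exact hr2
      · exact hl2 r' h1

lemma core (hk : 24 ≤ k) (hv : SW k t v) (hS : Std k t v D) (s : Start)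
    (hs : s.Available k) (ht : s.off = t)
    (x1 : ∀ e ∈ s.ex k, (∃ q, D q ∧ q ≤ (k + 1) / 2 ∧ e = (q, q + 2)) ∨
      (∃ q, D q ∧ k / 2 = q ∧ e = (2, 2 * q)))
    (x2 : ∀ q, D q → (q, q + 2) ∈ s.ex k ∨ (s = .sophie ∧ (k + 1) / 2 < q))
    (x3 : ∀ q, D q → k / 2 = q → (2, 2 * q) ∈ s.ex k) (x4 : (s.ex k).Nodup) :
    ∃ l f, Derives k s l f ∧ Reduced l ∧ Rule.reversal ∉ l ∧
      ∀ i, 1 ≤ i → i ≤ k → f i = v (i + t) := by
  classical
  obtain ⟨B, hB⟩ : ∃ B : Finset (ℕ × ℕ), ∀ e, e ∈ B ↔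
      ((∃ p c : ℕ, p.Prime ∧ 1 ≤ c ∧ p ^ c ≤ k ∧ k < p ^ c + p ^ (c - 1) ∧
        ¬ Cls k t v (p ^ c) 0 ∧ e = (p ^ (c - 1), p ^ c)) ∨
      (∃ q, D q ∧ s = .sophie ∧ (k + 1) / 2 < q ∧ e = (q, q + 2))) := by
    refine ⟨(Finset.range (k + 1) ×ˢ Finset.range (k + 1)).filter (fun e =>
      ((∃ p c : ℕ, p.Prime ∧ 1 ≤ c ∧ p ^ c ≤ k ∧ k < p ^ c + p ^ (c - 1) ∧
        ¬ Cls k t v (p ^ c) 0 ∧ e = (p ^ (c - 1), p ^ c)) ∨
      (∃ q, D q ∧ s = .sophie ∧ (k + 1) / 2 < q ∧ e = (q, q + 2)))), ?_⟩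
    intro e
    rw [Finset.mem_filter]
    constructor
    · exact fun h => h.2
    · intro h
      refine ⟨?_, h⟩
      rw [Finset.mem_product, Finset.mem_range, Finset.mem_range]
      have h1 : GB k t v D e := by
        rcases h with h | ⟨q, h1, -, -, h2⟩
        · exact Or.inl h
        · exact Or.inr (Or.inl ⟨q, h1, h2⟩)
      have h2 := (h1.gp hk hS).bounds (by omega)
      omega
  have hmem : ∀ e, e ∈ B.toList ↔
      ((∃ p c : ℕ, p.Prime ∧ 1 ≤ c ∧ p ^ c ≤ k ∧ k < p ^ c + p ^ (c - 1) ∧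
        ¬ Cls k t v (p ^ c) 0 ∧ e = (p ^ (c - 1), p ^ c)) ∨
      (∃ q, D q ∧ s = .sophie ∧ (k + 1) / 2 < q ∧ e = (q, q + 2))) := by
    intro e
    rw [Finset.mem_toList, hB]
  obtain ⟨l, hl1, hl2⟩ := exists_rules (k := k) (s := s) B.toList (by
    intro e he
    rcases (hmem e).1 he with ⟨p, c, h1, h2, h3, h4, -, rfl⟩ | ⟨q, h1, h2, h3, rfl⟩
    · exact ⟨.power p c, rfl, h1, h2, h3, h4⟩
    · have h4 := hS.tw q h1
      exact ⟨.twin q, rfl, h2, h4.1, h4.2.1, h4.2.2.1, h3⟩)
  have hrev : Rule.reversal ∉ l := fun h => (hl2 _ h).elim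
  -- the full list of pairs
  have hGB : ∀ e ∈ B.toList ++ s.ex k, GB k t v D e := by
    intro e he
    rcases List.mem_append.1 he with he | he
    · rcases (hmem e).1 he with h | ⟨q, h1, -, -, h2⟩
      · exact Or.inl h
      · exact Or.inr (Or.inl ⟨q, h1, h2⟩)
    · rcases x1 e he with ⟨q, h1, -, h2⟩ | h
      · exact Or.inr (Or.inl ⟨q, h1, h2⟩)
      · exact Or.inr (Or.inr h)
  have hnd : (B.toList ++ s.ex k).Nodup := by
    rw [List.nodup_append]
    refine ⟨B.nodup_toList, x4, ?_⟩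
    intro e he e' he' hee
    subst hee
    have hX : TP k e ∨ XP k e := by
      rcases x1 e he' with ⟨q, h1, -, h2⟩ | ⟨q, h1, h2, h3⟩
      · have h3 := hS.tw q h1
        exact Or.inl ⟨q, h3.1, h3.2.1, h3.2.2.2.1, hS.tw_lt hk h1, h2⟩
      · have h4 := hS.tw q h1
        exact Or.inr ⟨q, h4.1, h4.2.1, h2, h3⟩
    rcases (hmem e).1 he with ⟨p, c, h1, h2, h3, h4, -, h5⟩ | ⟨q, h1, h2, h3, h4⟩
    · have hP : PP k e := ⟨p, c, h1, h2, h3, h4, h5⟩
      rcases hX with hX | hX
      · exact (PP_TP (by omega) hP hX).1 rfl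
      · exact (PP_XP (by omega) hP hX).1 rfl
    · rcases x1 e he' with ⟨q', h5, h6, h7⟩ | ⟨q', h5, h6, h7⟩
      · rw [h4] at h7
        have : q = q' := (Prod.mk.inj h7).1
        omega
      · rw [h4] at h7
        have : q = 2 := (Prod.mk.inj h7).1
        omega
  have hDj : (B.toList).Pairwise Dj := by
    apply GP.pairwise (k := k) (by omega) B.nodup_toList
    intro e he
    exact (hGB e (by simp [List.mem_append, he])).gp hk hS
  have hder := derives_static hs hl2 (by rw [hl1]; exact hDj)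
  refine ⟨l, _, hder, ?_, hrev, ?_⟩
  · refine ⟨?_, ?_⟩
    · rw [hl1]
      exact B.nodup_toList
    · rw [List.count_eq_zero_of_not_mem hrev]
      omega
  · intro i hi1 hi2
    show sws (l.filterMap Rule.pair) (s.seq k i) = v (i + t)
    rw [hl1, s.seq_eq hi1 hi2, ← sws_append, ht]
    refine ident hk hv hS hnd hGB ?_ ?_ ?_ i hi1 hi2
    · intro p c h1 h2 h3 h4 h5
      exact List.mem_append_left _ ((hmem _).2 (Or.inl ⟨p, c, h1, h2, h3, h4, h5, rfl⟩))
    · intro q hq
      rcases x2 q hq with h1 | ⟨h1, h2⟩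
      · exact List.mem_append_right _ h1
      · exact List.mem_append_left _ ((hmem _).2 (Or.inr ⟨q, hq, h1, h2, rfl⟩))
    · intro q hq h1
      exact List.mem_append_right _ (x3 q hq h1)

theorem derive_std (hk : 24 ≤ k) (hv : SW k t v) (hS : Std k t v D) :
    ∃ s l f, Derives k s l f ∧ Reduced l ∧ Rule.reversal ∉ l ∧
      ∀ i, 1 ≤ i → i ≤ k → f i = v (i + t) := by
  rcases hS.typ with ⟨h1, h2⟩ | ⟨h1, hp, h2⟩ | ⟨h1, P, h2, h3, h4, h5, h6⟩
  · by_cases hD : D (k / 2)
    · obtain ⟨a1, a2, a3, a4, -⟩ := hS.tw _ hD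
      refine ⟨.twiceTwin, core hk hv hS .twiceTwin ⟨k / 2, a1, a2, by omega⟩ h1.symm ?_ ?_ ?_ ?_⟩
      · intro e he
        simp only [Start.ex, List.mem_cons, List.not_mem_nil, or_false] at he
        rcases he with rfl | rfl
        · exact Or.inl ⟨k / 2, hD, by omega, rfl⟩
        · exact Or.inr ⟨k / 2, hD, rfl, rfl⟩
      · intro q hq
        rw [h2 q hq]
        simp [Start.ex]
      · rintro q hq rfl
        simp [Start.ex]
      · simp only [Start.ex, List.nodup_cons, List.mem_singleton, Prod.mk.injEq, not_and,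
          List.not_mem_nil, not_false_eq_true, List.nodup_nil, and_self, and_true]
        omega
    · have hE : ∀ q, ¬ D q := fun q hq => hD (h2 q hq ▸ hq)
      refine ⟨.consecutive, core hk hv hS .consecutive trivial h1.symm ?_ ?_ ?_ ?_⟩
      · intro e he
        simp [Start.ex] at he
      · intro q hq
        exact (hE q hq).elim
      · intro q hq
        exact (hE q hq).elim
      · simp [Start.ex]
  · by_cases hD : D (k / 2)
    · obtain ⟨a1, a2, a3, a4, -⟩ := hS.tw _ hD
      have hk2 : k = 2 * (k / 2) := by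
        rcases hp.eq_two_or_odd with h3 | h3
        · omega
        · omega
      refine ⟨.twiceTwinInversion, core hk hv hS .twiceTwinInversion
        ⟨k / 2, a1, a2, by rw [← hk2]; exact hp, hk2⟩ h1.symm ?_ ?_ ?_ ?_⟩
      · intro e he
        simp only [Start.ex, List.mem_cons, List.not_mem_nil, or_false] at he
        rcases he with rfl | rfl
        · exact Or.inl ⟨k / 2, hD, by omega, rfl⟩
        · exact Or.inr ⟨k / 2, hD, rfl, rfl⟩
      · intro q hq
        rw [h2 q hq]
        simp [Start.ex]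
      · rintro q hq rfl
        simp [Start.ex]
      · simp only [Start.ex, List.nodup_cons, List.mem_singleton, Prod.mk.injEq, not_and,
          List.not_mem_nil, not_false_eq_true, List.nodup_nil, and_self, and_true]
        omega
    · have hE : ∀ q, ¬ D q := fun q hq => hD (h2 q hq ▸ hq)
      refine ⟨.inversion, core hk hv hS .inversion hp h1.symm ?_ ?_ ?_ ?_⟩
      · intro e he
        simp [Start.ex] at he
      · intro q hq
        exact (hE q hq).elim
      · intro q hq
        exact (hE q hq).elim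
      · simp [Start.ex]
  · have hP : (k + 1) / 2 = P := by omega
    have hPo : P % 2 = 1 := by
      rcases h3.eq_two_or_odd with h7 | h7
      · omega
      · exact h7
    refine ⟨.sophie, core hk hv hS .sophie ⟨P, h3, h4, h5, h2⟩ h1.symm ?_ ?_ ?_ ?_⟩
    · intro e he
      simp only [Start.ex, List.mem_cons, List.not_mem_nil, or_false] at he
      subst he
      exact Or.inl ⟨(k + 1) / 2, by rw [hP]; exact h6, le_rfl, rfl⟩
    · intro q hq
      have h7 := hS.tw q hq
      have h8 := hS.tw_odd hk hq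
      rcases Nat.lt_or_ge ((k + 1) / 2) q with h9 | h9
      · exact Or.inr ⟨rfl, h9⟩
      · left
        have : q = (k + 1) / 2 := by omega
        rw [this]
        simp [Start.ex]
    · intro q hq h7
      have h8 := hS.tw_odd hk hq
      omega
    · simp [Start.ex]

/-- Every weakly consecutive sequence has a reduced derivation. -/
theorem exists_derivation (hk : 1 ≤ k) {σ : ℕ → ℕ} (h : IsWCS k σ) :
    ∃ s l f, Derives k s l f ∧ Reduced l ∧ ∀ i, 1 ≤ i → i ≤ k → f i = σ i := by
  rcases Nat.lt_or_ge k 24 with hk1 | hk1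
  · obtain ⟨s, -, -, m, -, h1, h2, h3⟩ := search_derives k hk1 _ (mem_search h (by omega))
    refine ⟨s, m, _, h3.derives, h2, ?_⟩
    intro i hi1 hi2
    obtain ⟨j, rfl⟩ : ∃ j, i = j + 1 := ⟨i - 1, by omega⟩
    rw [h1 j (by omega), getD_map k σ (by omega)]
  · rcases std_all k (by omega) σ h with ⟨t, E, hE⟩ | ⟨t, E, hE⟩
    · obtain ⟨s, l, f, h1, h2, -, h3⟩ := derive_std hk1 (SW.of_isWCS h hk t) hE
      refine ⟨s, l, f, h1, h2, ?_⟩
      intro i hi1 hi2
      rw [h3 i hi1 hi2]
      simp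
    · obtain ⟨s, l, f, h1, h2, h4, h3⟩ := derive_std hk1 (SW.of_isWCS h.rev hk t) hE
      refine ⟨s, .reversal :: l, _, Derives.step .reversal h1 trivial, ⟨?_, ?_⟩, ?_⟩
      · exact h2.1
      · rw [List.count_cons_self, List.count_eq_zero_of_not_mem h4]
      · intro i hi1 hi2
        show f (k + 1 - i) = σ i
        rw [h3 _ (by omega) (by omega)]
        simp only [Nat.add_sub_cancel]
        congr 1
        omega

end Pool.Agent.Q58.WCS
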