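import Mathlib
import Pool.Agent.Q58.WCS.Exist

/-!
# Weakly consecutive sequences: derived sequences are weakly consecutive
-/

set_option autoImplicit false

namespace Pool.Agent.Q58.WCS

open Pool.Agent.Results.MP_a4c3d5_co.SmallTerms

variable {k : ℕ}

lemma bijOn_of {f : ℕ → ℕ} (h1 : ∀ i, 1 ≤ i → i ≤ k → 1 ≤ f i ∧ f i ≤ k)
    (h2 : ∀ i j, 1 ≤ i → i ≤ k → 1 ≤ j → j ≤ k → f i = f j → i = j) :
    Set.BijOn f (Set.Icc 1 k) (Set.Icc 1 k) :=
  ((Set.finite_Icc 1 k).injOn_iff_bijOn_of_mapsTo (fun i hi => h1 i hi.1 hi.2)).1
    (fun a ha b hb hab => h2 a b ha.1 ha.2 hb.1 hb.2 hab)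

lemma isWCS_congr {f g : ℕ → ℕ} (h : IsWCS k f) (hfg : ∀ i, 1 ≤ i → i ≤ k → f i = g i) :
    IsWCS k g := by
  refine ⟨h.1.congr (fun i hi => hfg i hi.1 hi.2), ?_⟩
  intro i hi j hj m hm h1 h2
  rw [← hfg i hi.1 hi.2] at h1
  rw [← hfg j hj.1 hj.2]
  exact h.2 i hi j hj m hm h1 h2

lemma swap_dvd {a b m : ℕ} (h : m ∣ a ↔ m ∣ b) (x : ℕ) : m ∣ Equiv.swap a b x ↔ m ∣ x := by
  have := sws_dvd (E := [(a, b)]) (q := m) (by simpa using h) x
  simpa [sws] using this

/-- Exchanging two entries. -/
lemma isWCS_swap {f : ℕ → ℕ} (h : IsWCS k f) {a b : ℕ} (ha : 1 ≤ a ∧ a ≤ k) (hb : 1 ≤ b ∧ b ≤ k)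
    (hm : ∀ m : ℕ, 0 < m → ¬ (m ∣ a ↔ m ∣ b) → ∀ i, 1 ≤ i → i ≤ k → ∀ j, 1 ≤ j → j ≤ k →
      m ∣ Equiv.swap a b (f i) → (m : ℤ) ∣ (i : ℤ) - j → i = j) :
    IsWCS k (fun i => Equiv.swap a b (f i)) := by
  refine ⟨bijOn_of ?_ ?_, ?_⟩
  · intro i h1 h2
    have h3 := h.bounds h1 h2
    exact sws_Icc (E := [(a, b)]) (by simpa using ⟨ha, hb⟩) h3.1 h3.2
  · intro i j h1 h2 h3 h4 h5
    exact h.1.injOn ⟨h1, h2⟩ ⟨h3, h4⟩ ((Equiv.injective _) h5)
  · intro i hi j hj m hm0 h1 h2
    by_cases h3 : (m ∣ a ↔ m ∣ b)
    · show m ∣ Equiv.swap a b (f j)
      rw [swap_dvd h3]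
      exact h.2 i hi j hj m hm0 ((swap_dvd h3 _).1 h1) h2
    · have h4 := hm m hm0 h3 i hi.1 hi.2 j hj.1 hj.2 h1 h2
      rw [← h4]
      exact h1

/-- A congruence modulo a large number. -/
lemma eq_of_cong {m i j : ℕ} (h : (m : ℤ) ∣ (i : ℤ) - j) (h1 : i < j + m) (h2 : j < i + m) :
    i = j := by
  obtain ⟨c, hc⟩ := h
  have hm : (0 : ℤ) < m := by omega
  have h3 : c < 1 := by
    by_contra hcon
    push Not at hcon
    have : (m : ℤ) * 1 ≤ m * c := mul_le_mul_of_nonneg_left hcon hm.le
    omega
  have h4 : -1 < c := by
    by_contra hcon
    push Not at hcon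
    have : (m : ℤ) * c ≤ m * (-1) := mul_le_mul_of_nonneg_left hcon hm.le
    omega
  have h5 : c = 0 := by omega
  rw [h5, mul_zero] at hc
  omega

lemma isWCS_power {f : ℕ → ℕ} (h : IsWCS k f) {p c : ℕ} (hp : p.Prime) (hc : 1 ≤ c)
    (h1 : p ^ c ≤ k) (h2 : k < p ^ c + p ^ (c - 1)) :
    IsWCS k (fun i => Equiv.swap (p ^ (c - 1)) (p ^ c) (f i)) := by
  obtain ⟨P, hP⟩ : ∃ P, P = p ^ (c - 1) := ⟨_, rfl⟩
  have hpc : p ^ c = p * P := by
    rw [hP, ← pow_succ']
    congr 1
    omega
  have hP1 : 1 ≤ P := hP ▸ Nat.one_le_pow _ _ hp.pos
  have h2P : 2 * P ≤ p * P := Nat.mul_le_mul_right _ hp.two_le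
  rw [← hP] at h2
  apply isWCS_swap h
  · rw [← hP]
    rw [hpc] at h1
    omega
  · exact ⟨Nat.one_le_pow _ _ hp.pos, h1⟩
  · intro m hm0 hm i hi1 hi2 j hj1 hj2 h3 h4
    -- `m = p ^ c`
    have hmd : m ∣ p ^ c ∧ ¬ m ∣ P := by
      rw [← hP] at hm
      by_cases h5 : m ∣ P
      · exfalso
        apply hm
        refine ⟨fun _ => ?_, fun _ => h5⟩
        rw [hpc]
        exact Dvd.dvd.mul_left h5 p
      · refine ⟨?_, h5⟩
        by_contra h6
        exact hm ⟨fun h7 => (h5 h7).elim, fun h7 => (h6 h7).elim⟩
    have hmc : m = p ^ c := by
      obtain ⟨a, ha1, ha2⟩ := (Nat.dvd_prime_pow hp).1 hmd.1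
      rcases Nat.lt_or_ge a c with h5 | h5
      · exfalso
        apply hmd.2
        rw [ha2, hP]
        exact pow_dvd_pow p (by omega)
      · rw [ha2]
        congr 1
        omega
    subst hmc
    -- the position of `P`
    have hfi : f i = P := by
      have h5 := h.bounds hi1 hi2
      have h6 := sws_Icc (E := [(P, p ^ c)]) (k := k) (by
        simp only [List.mem_singleton, forall_eq]
        rw [hpc] at h1 ⊢
        omega) h5.1 h5.2
      rw [← hP] at h3
      have h7 : sws [(P, p ^ c)] (f i) = Equiv.swap P (p ^ c) (f i) := rfl
      rw [h7] at h6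
      obtain ⟨d, hd⟩ := h3
      have h8 : d < 2 := by
        by_contra hcon
        push Not at hcon
        have : p ^ c * 2 ≤ p ^ c * d := Nat.mul_le_mul_left _ hcon
        omega
      have h9 : d ≠ 0 := by
        rintro rfl
        omega
      have h10 : d = 1 := by omega
      rw [h10, Nat.mul_one] at hd
      have h11 : Equiv.swap P (p ^ c) (f i) = Equiv.swap P (p ^ c) P := by
        rw [hd, Equiv.swap_apply_left]
      exact (Equiv.injective _) h11
    obtain ⟨r, hr1, hr2, hr3, hr4⟩ := h.class (m := P) hP1 (by omega)
    have h5 : k % P = k - p ^ c := by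
      have h6 : k = (k - p ^ c) + P * p := by
        rw [Nat.mul_comm, ← hpc]
        omega
      have h7 : (k - p ^ c) + P * p ≡ k - p ^ c [MOD P] := by
        simp [Nat.ModEq]
      rw [← h6, Nat.ModEq, Nat.mod_eq_of_lt (show k - p ^ c < P by omega)] at h7
      exact h7
    have h6 : k - p ^ c < r := by
      rw [← h5]
      exact hr3
    have h7 := (hr4 i hi1 hi2).1 (by rw [hfi])
    have h8 : (P : ℤ) ∣ (r : ℤ) - (i : ℤ) := Nat.modEq_iff_dvd.1 h7
    obtain ⟨n, hn⟩ := h8
    have hPz : (0 : ℤ) < P := by exact_mod_cast hP1
    have hn0 : n ≤ 0 := by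
      by_contra hcon
      push Not at hcon
      have : (P : ℤ) * 1 ≤ P * n := mul_le_mul_of_nonneg_left hcon hPz.le
      omega
    have hnp : -(p : ℤ) < n := by
      by_contra hcon
      push Not at hcon
      have h9 : (P : ℤ) * n ≤ P * (-(p : ℤ)) := mul_le_mul_of_nonneg_left hcon hPz.le
      have h10 : (P : ℤ) * (-(p : ℤ)) = -((p ^ c : ℕ) : ℤ) := by
        rw [hpc]
        push_cast
        ring
      omega
    have hi3 : i ≤ p ^ c := by
      have h9 : (P : ℤ) * (1 - p) ≤ P * n := mul_le_mul_of_nonneg_left (by omega) hPz.le
      have h10 : (P : ℤ) * (1 - p) = P - ((p ^ c : ℕ) : ℤ) := by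
        rw [hpc]
        push_cast
        ring
      omega
    have hi4 : k < i + p ^ c := by
      have h9 : (P : ℤ) * n ≤ P * 0 := mul_le_mul_of_nonneg_left hn0 hPz.le
      omega
    exact eq_of_cong h4 (by omega) (by omega)

/-- The starting sequences. -/
lemma isWCS_sws {t : ℕ} {E : List (ℕ × ℕ)}
    (hE : ∀ e ∈ E, (1 ≤ e.1 ∧ e.1 ≤ k) ∧ 1 ≤ e.2 ∧ e.2 ≤ k)
    (hm : ∀ m, 1 ≤ m → m ≤ k → ((∀ e ∈ E, (m ∣ e.1 ↔ m ∣ e.2)) ∧
      (∀ i, 1 ≤ i → i ≤ k → (m ∣ base t k i ↔ m ∣ i + t))) ∨
      (∀ i, 1 ≤ i → i ≤ k → ∀ j, 1 ≤ j → j ≤ k → m ∣ sws E (base t k i) →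
        (m : ℤ) ∣ (i : ℤ) - j → m ∣ sws E (base t k j))) :
    IsWCS k (fun i => sws E (base t k i)) := by
  have hb : ∀ i, 1 ≤ i → i ≤ k → 1 ≤ sws E (base t k i) ∧ sws E (base t k i) ≤ k := by
    intro i hi1 hi2
    have h5 := base_bounds (t := t) hi1 hi2
    exact sws_Icc hE h5.1 h5.2
  refine ⟨bijOn_of hb ?_, ?_⟩
  · intro i j hi1 hi2 hj1 hj2 hij
    exact base_inj hi1 hi2 hj1 hj2 (sws_inj E hij)
  · intro i hi j hj m hm0 h1 h2
    have h3 := hb i hi.1 hi.2
    have h4 : m ≤ k := (Nat.le_of_dvd h3.1 h1).trans h3.2
    rcases hm m hm0 h4 with ⟨h5, h6⟩ | h5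
    · have h7 : m ∣ i + t := (h6 i hi.1 hi.2).1 ((sws_dvd h5 _).1 h1)
      refine (sws_dvd h5 _).2 ((h6 j hj.1 hj.2).2 ?_)
      have h8 : (m : ℤ) ∣ ((i + t : ℕ) : ℤ) := by exact_mod_cast h7
      have h9 : ((j + t : ℕ) : ℤ) = ((i + t : ℕ) : ℤ) - ((i : ℤ) - j) := by
        push_cast
        ring
      have h10 : (m : ℤ) ∣ ((j + t : ℕ) : ℤ) := by
        rw [h9]
        exact dvd_sub h8 h2
      exact_mod_cast h10
    · exact h5 i hi.1 hi.2 j hj.1 hj.2 h1 h2

/-- A multiple of a large number. -/
lemma eq_of_dvd_lt {m x : ℕ} (h : m ∣ x) (h1 : 0 < x) (h2 : x < 2 * m) : x = m := by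
  obtain ⟨d, hd⟩ := h
  have h3 : d < 2 := by
    by_contra hcon
    push Not at hcon
    have : m * 2 ≤ m * d := Nat.mul_le_mul_left _ hcon
    omega
  have h4 : d ≠ 0 := by
    rintro rfl
    omega
  have h5 : d = 1 := by omega
  rw [hd, h5, Nat.mul_one]

/-- Divisors of the entries exchanged in the starting sequences. -/
lemma dvd_pairs {p m : ℕ} (hp : p.Prime) (hp2 : (p + 2).Prime) (h1 : m ≠ p) (h2 : m ≠ p + 2)
    (h3 : m ≠ 2 * p) : (m ∣ p ↔ m ∣ p + 2) ∧ (m ∣ 2 ↔ m ∣ 2 * p) := by
  constructor
  · constructor
    · intro h
      rcases (Nat.dvd_prime hp).1 h with h4 | h4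
      · rw [h4]
        exact one_dvd _
      · exact (h1 h4).elim
    · intro h
      rcases (Nat.dvd_prime hp2).1 h with h4 | h4
      · rw [h4]
        exact one_dvd _
      · exact (h2 h4).elim
  · constructor
    · intro h
      exact Dvd.dvd.mul_right h p
    · intro h
      by_cases h4 : p ∣ m
      · exfalso
        obtain ⟨n, rfl⟩ := h4
        have h5 : n ∣ 2 := by
          rw [Nat.mul_comm 2 p] at h
          exact (Nat.mul_dvd_mul_iff_left hp.pos).1 h
        rcases (Nat.dvd_prime Nat.prime_two).1 h5 with h6 | h6
        · rw [h6] at h1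
          simp at h1
        · rw [h6] at h3
          exact h3 (Nat.mul_comm _ _)
      · have h5 : m.Coprime p := ((Nat.Prime.coprime_iff_not_dvd hp).2 h4).symm
        exact h5.dvd_of_dvd_mul_right h

lemma isWCS_start (hk : 1 ≤ k) {s : Start} (hs : s.Available k) : IsWCS k (s.seq k) := by
  have key : IsWCS k (fun i => sws (s.ex k) (base s.off k i)) := by
    cases s with
    | consecutive =>
      apply isWCS_sws
      · intro e he
        simp [Start.ex] at he
      · intro m _ _
        left
        refine ⟨by simp [Start.ex], ?_⟩
        intro i h1 h2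
        have : base Start.consecutive.off k i = i + Start.consecutive.off := by
          unfold base Start.off
          rw [if_pos (by omega)]
        rw [this]
    | inversion =>
      have hs' : (k + 1).Prime := hs
      apply isWCS_sws
      · intro e he
        simp [Start.ex] at he
      · intro m hm1 hm2
        left
        refine ⟨by simp [Start.ex], ?_⟩
        intro i h1 h2
        show m ∣ base 1 k i ↔ m ∣ i + 1
        unfold base
        split_ifs with h3
        · rfl
        · have h4 : i = k := by omega
          subst h4
          have h5 : i + 1 - i = 1 := by omega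
          rw [h5]
          constructor
          · intro h6
            rw [Nat.dvd_one.1 h6]
            exact one_dvd _
          · intro h6
            rcases (Nat.dvd_prime hs').1 h6 with h7 | h7
            · rw [h7]
            · omega
    | twiceTwin =>
      obtain ⟨p, hp, hp2, hkp⟩ := hs
      have h4 : k / 2 = p := by omega
      have hp3 : 3 ≤ p := by
        have h5 := hp.two_le
        have h6 : p ≠ 2 := by
          rintro rfl
          norm_num at hp2
        omega
      have hbase : ∀ i, 1 ≤ i → i ≤ k → base 0 k i = i := by
        intro i h1 h2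
        unfold base
        rw [if_pos (by omega)]
        rfl
      have hDj : ([(p, p + 2), (2, 2 * p)] : List (ℕ × ℕ)).Pairwise Dj := by
        simp [Dj]
        omega
      have hmem := fun e he => sws_mem (e := e) hDj he
      have m1 := hmem (p, p + 2) (by simp)
      have m2 := hmem (2, 2 * p) (by simp)
      simp only at m1 m2
      show IsWCS k (fun i => sws [(k / 2, k / 2 + 2), (2, 2 * (k / 2))] (base 0 k i))
      rw [h4]
      apply isWCS_sws
      · intro e he
        simp only [List.mem_cons, List.not_mem_nil, or_false] at he
        rcases he with rfl | rfl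
        · simp only
          omega
        · simp only
          omega
      · intro m hm1 hm2
        by_cases h5 : m = p
        · right
          subst h5
          intro i hi1 hi2 j hj1 hj2 h6 h7
          have h8 := base_bounds (t := 0) hi1 hi2
          have h9 : 1 ≤ sws [(m, m + 2), (2, 2 * m)] (base 0 k i) ∧
              sws [(m, m + 2), (2, 2 * m)] (base 0 k i) ≤ k := by
            apply sws_Icc _ h8.1 h8.2
            intro e he
            simp only [List.mem_cons, List.not_mem_nil, or_false] at he
            rcases he with rfl | rfl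
            · simp only
              omega
            · simp only
              omega
          have h10 : sws [(m, m + 2), (2, 2 * m)] (base 0 k i) = m ∨
              sws [(m, m + 2), (2, 2 * m)] (base 0 k i) = 2 * m := by
            obtain ⟨d, hd⟩ := h6
            have h11 : d < 3 := by
              by_contra hcon
              push Not at hcon
              have : m * 3 ≤ m * d := Nat.mul_le_mul_left _ hcon
              omega
            have h12 : d ≠ 0 := by
              rintro rfl
              omega
            rcases (show d = 1 ∨ d = 2 by omega) with rfl | rfl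
            · left
              rw [hd, Nat.mul_one]
            · right
              rw [hd, Nat.mul_comm]
          have h11 : i = m + 2 ∨ i = 2 := by
            rcases h10 with h10 | h10
            · left
              rw [← hbase i hi1 hi2]
              exact sws_inj _ (h10.trans m1.2.symm)
            · right
              rw [← hbase i hi1 hi2]
              exact sws_inj _ (h10.trans m2.1.symm)
          have h12 : (m : ℤ) ∣ (j : ℤ) - 2 := by
            rcases h11 with h11 | h11
            · have : (j : ℤ) - 2 = m - ((i : ℤ) - j) := by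
                rw [h11]
                push_cast
                ring
              rw [this]
              exact dvd_sub dvd_rfl h7
            · have : (j : ℤ) - 2 = - ((i : ℤ) - j) := by
                rw [h11]
                push_cast
                ring
              rw [this]
              exact (dvd_neg).2 h7
          have h13 : j = m + 2 ∨ j = 2 := by
            rcases Nat.lt_or_ge j (m + 2) with h14 | h14
            · right
              exact eq_of_cong (m := m) (by exact_mod_cast h12) (by omega) (by omega)
            · left
              refine eq_of_cong (m := m) (i := j) (j := m + 2) ?_ (by omega) (by omega)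
              have : (j : ℤ) - ((m + 2 : ℕ) : ℤ) = ((j : ℤ) - 2) - m := by
                push_cast
                ring
              rw [this]
              exact dvd_sub h12 dvd_rfl
          rw [hbase j hj1 hj2]
          rcases h13 with h13 | h13
          · rw [h13, m1.2]
          · rw [h13, m2.1]
            exact dvd_mul_left _ _
        by_cases h6 : m = p + 2
        · right
          subst h6
          intro i hi1 hi2 j hj1 hj2 h6 h7
          have h8 := base_bounds (t := 0) hi1 hi2
          have h9 : 1 ≤ sws [(p, p + 2), (2, 2 * p)] (base 0 k i) ∧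
              sws [(p, p + 2), (2, 2 * p)] (base 0 k i) ≤ k := by
            apply sws_Icc _ h8.1 h8.2
            intro e he
            simp only [List.mem_cons, List.not_mem_nil, or_false] at he
            rcases he with rfl | rfl
            · simp only
              omega
            · simp only
              omega
          have h10 := eq_of_dvd_lt h6 (by omega) (by omega)
          have h11 : i = p := by
            rw [← hbase i hi1 hi2]
            exact sws_inj _ (h10.trans m1.1.symm)
          have h12 := eq_of_cong h7 (by omega) (by omega)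
          rw [← h12]
          exact h6
        by_cases h7 : m = 2 * p
        · right
          subst h7
          intro i hi1 hi2 j hj1 hj2 h6 h7
          have h8 := base_bounds (t := 0) hi1 hi2
          have h9 : 1 ≤ sws [(p, p + 2), (2, 2 * p)] (base 0 k i) ∧
              sws [(p, p + 2), (2, 2 * p)] (base 0 k i) ≤ k := by
            apply sws_Icc _ h8.1 h8.2
            intro e he
            simp only [List.mem_cons, List.not_mem_nil, or_false] at he
            rcases he with rfl | rfl
            · simp only
              omega
            · simp only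
              omega
          have h10 := eq_of_dvd_lt h6 (by omega) (by omega)
          have h11 : i = 2 := by
            rw [← hbase i hi1 hi2]
            exact sws_inj _ (h10.trans m2.1.symm)
          have h12 := eq_of_cong h7 (by omega) (by omega)
          rw [← h12]
          exact h6
        left
        obtain ⟨h8, h9⟩ := dvd_pairs hp hp2 h5 h6 h7
        refine ⟨?_, ?_⟩
        · intro e he
          simp only [List.mem_cons, List.not_mem_nil, or_false] at he
          rcases he with rfl | rfl
          · exact h8
          · exact h9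
        · intro i h1 h2
          rw [hbase i h1 h2, Nat.add_zero]
    | sophie =>
      obtain ⟨p, hp, hp2, hp1, hkp⟩ := hs
      have h4 : (k + 1) / 2 = p := by omega
      have hp3 : 3 ≤ p := by
        have h5 := hp.two_le
        have h6 : p ≠ 2 := by
          rintro rfl
          norm_num at hp2
        omega
      have hDj : ([(p, p + 2)] : List (ℕ × ℕ)).Pairwise Dj := by simp
      have m1 := sws_mem (e := (p, p + 2)) hDj (by simp)
      simp only at m1
      show IsWCS k (fun i => sws [((k + 1) / 2, (k + 1) / 2 + 2)] (base 2 k i))
      rw [h4]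
      have hbd : ∀ i, 1 ≤ i → i ≤ k → 1 ≤ sws [(p, p + 2)] (base 2 k i) ∧
          sws [(p, p + 2)] (base 2 k i) ≤ k := by
        intro i hi1 hi2
        have h8 := base_bounds (t := 2) hi1 hi2
        apply sws_Icc _ h8.1 h8.2
        intro e he
        simp only [List.mem_singleton] at he
        subst he
        simp only
        omega
      apply isWCS_sws
      · intro e he
        simp only [List.mem_singleton] at he
        subst he
        simp only
        omega
      · intro m hm1 hm2
        by_cases h5 : m = p
        · right
          subst h5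
          intro i hi1 hi2 j hj1 hj2 h6 h7
          have h9 := hbd i hi1 hi2
          have h10 := eq_of_dvd_lt h6 (by omega) (by omega)
          have h11 : base 2 k i = m + 2 := sws_inj _ (h10.trans m1.2.symm)
          have h12 : i = m := by
            unfold base at h11
            split_ifs at h11 <;> omega
          have h13 := eq_of_cong h7 (by omega) (by omega)
          rw [← h13]
          exact h6
        by_cases h6 : m = p + 2
        · right
          subst h6
          intro i hi1 hi2 j hj1 hj2 h6 h7
          have h9 := hbd i hi1 hi2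
          have h10 := eq_of_dvd_lt h6 (by omega) (by omega)
          have h11 : base 2 k i = p := sws_inj _ (h10.trans m1.1.symm)
          have h12 : i + 2 = p := by
            unfold base at h11
            split_ifs at h11 <;> omega
          have h13 := eq_of_cong h7 (by omega) (by omega)
          rw [← h13]
          exact h6
        left
        obtain ⟨h8, h9⟩ := dvd_pairs hp hp2 h5 h6 (by omega)
        refine ⟨?_, ?_⟩
        · intro e he
          simp only [List.mem_singleton] at he
          subst he
          exact h8
        · intro i h1 h2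
          unfold base
          split_ifs with h3
          · rfl
          · rcases (show i = k ∨ i + 1 = k by omega) with h10 | h10
            · have e1 : k + 1 - i = 1 := by omega
              have e2 : i + 2 = 2 * p + 1 := by omega
              rw [e1, e2]
              constructor
              · intro h11
                rw [Nat.dvd_one.1 h11]
                exact one_dvd _
              · intro h11
                rcases (Nat.dvd_prime hp1).1 h11 with h12 | h12
                · rw [h12]
                · omega
            · have e1 : k + 1 - i = 2 := by omega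
              have e2 : i + 2 = 2 * p := by omega
              rw [e1, e2]
              exact h9
    | twiceTwinInversion =>
      obtain ⟨p, hp, hp2, hp1, hkp⟩ := hs
      have h4 : k / 2 = p := by omega
      have hp3 : 3 ≤ p := by
        have h5 := hp.two_le
        have h6 : p ≠ 2 := by
          rintro rfl
          norm_num at hp2
        omega
      have hDj : ([(p, p + 2), (2, 2 * p)] : List (ℕ × ℕ)).Pairwise Dj := by
        simp [Dj]
        omega
      have m1 := sws_mem (e := (p, p + 2)) hDj (by simp)
      have m2 := sws_mem (e := (2, 2 * p)) hDj (by simp)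
      simp only at m1 m2
      show IsWCS k (fun i => sws [(k / 2, k / 2 + 2), (2, 2 * (k / 2))] (base 1 k i))
      rw [h4]
      have hE : ∀ e ∈ ([(p, p + 2), (2, 2 * p)] : List (ℕ × ℕ)),
          (1 ≤ e.1 ∧ e.1 ≤ k) ∧ 1 ≤ e.2 ∧ e.2 ≤ k := by
        intro e he
        simp only [List.mem_cons, List.not_mem_nil, or_false] at he
        rcases he with rfl | rfl
        · simp only
          omega
        · simp only
          omega
      have hbd : ∀ i, 1 ≤ i → i ≤ k → 1 ≤ sws [(p, p + 2), (2, 2 * p)] (base 1 k i) ∧
          sws [(p, p + 2), (2, 2 * p)] (base 1 k i) ≤ k := by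
        intro i hi1 hi2
        have h8 := base_bounds (t := 1) hi1 hi2
        exact sws_Icc hE h8.1 h8.2
      have hbase : ∀ i b, 1 < b → base 1 k i = b → i + 1 = b := by
        intro i b hb h
        unfold base at h
        split_ifs at h <;> omega
      have hbase' : ∀ i, i + 1 ≤ k → base 1 k i = i + 1 := by
        intro i h
        unfold base
        rw [if_pos h]
      apply isWCS_sws hE
      intro m hm1 hm2
      by_cases h5 : m = p
      · right
        subst h5
        intro i hi1 hi2 j hj1 hj2 h6 h7
        have h9 := hbd i hi1 hi2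
        have h10 : sws [(m, m + 2), (2, 2 * m)] (base 1 k i) = m ∨
            sws [(m, m + 2), (2, 2 * m)] (base 1 k i) = 2 * m := by
          obtain ⟨d, hd⟩ := h6
          have h11 : d < 3 := by
            by_contra hcon
            push Not at hcon
            have : m * 3 ≤ m * d := Nat.mul_le_mul_left _ hcon
            omega
          have h12 : d ≠ 0 := by
            rintro rfl
            omega
          rcases (show d = 1 ∨ d = 2 by omega) with rfl | rfl
          · left
            rw [hd, Nat.mul_one]
          · right
            rw [hd, Nat.mul_comm]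
        have h11 : i = m + 1 ∨ i = 1 := by
          rcases h10 with h10 | h10
          · left
            have := hbase i _ (by omega) (sws_inj _ (h10.trans m1.2.symm))
            omega
          · right
            have := hbase i _ (by omega) (sws_inj _ (h10.trans m2.1.symm))
            omega
        have h12 : (m : ℤ) ∣ (j : ℤ) - 1 := by
          rcases h11 with h11 | h11
          · have : (j : ℤ) - 1 = m - ((i : ℤ) - j) := by
              rw [h11]
              push_cast
              ring
            rw [this]
            exact dvd_sub dvd_rfl h7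
          · have : (j : ℤ) - 1 = - ((i : ℤ) - j) := by
              rw [h11]
              push_cast
              ring
            rw [this]
            exact (dvd_neg).2 h7
        have h13 : j = m + 1 ∨ j = 1 := by
          rcases Nat.lt_or_ge j (m + 1) with h14 | h14
          · right
            exact eq_of_cong (m := m) (by exact_mod_cast h12) (by omega) (by omega)
          · left
            refine eq_of_cong (m := m) (i := j) (j := m + 1) ?_ (by omega) (by omega)
            have : (j : ℤ) - ((m + 1 : ℕ) : ℤ) = ((j : ℤ) - 1) - m := by
              push_cast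
              ring
            rw [this]
            exact dvd_sub h12 dvd_rfl
        rcases h13 with h13 | h13
        · rw [h13, hbase' _ (by omega), m1.2]
        · rw [h13, hbase' _ (by omega), m2.1]
          exact dvd_mul_left _ _
      by_cases h6 : m = p + 2
      · right
        subst h6
        intro i hi1 hi2 j hj1 hj2 h6 h7
        have h9 := hbd i hi1 hi2
        have h10 := eq_of_dvd_lt h6 (by omega) (by omega)
        have h11 := hbase i _ (by omega) (sws_inj _ (h10.trans m1.1.symm))
        have h12 := eq_of_cong h7 (by omega) (by omega)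
        rw [← h12]
        exact h6
      by_cases h7 : m = 2 * p
      · right
        subst h7
        intro i hi1 hi2 j hj1 hj2 h6 h7
        have h9 := hbd i hi1 hi2
        have h10 := eq_of_dvd_lt h6 (by omega) (by omega)
        have h11 := hbase i _ (by omega) (sws_inj _ (h10.trans m2.1.symm))
        have h12 := eq_of_cong h7 (by omega) (by omega)
        rw [← h12]
        exact h6
      left
      obtain ⟨h8, h9⟩ := dvd_pairs hp hp2 h5 h6 h7
      refine ⟨?_, ?_⟩
      · intro e he
        simp only [List.mem_cons, List.not_mem_nil, or_false] at he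
        rcases he with rfl | rfl
        · exact h8
        · exact h9
      · intro i h1 h2
        unfold base
        split_ifs with h3
        · rfl
        · have e1 : k + 1 - i = 1 := by omega
          have e2 : i + 1 = 2 * p + 1 := by omega
          rw [e1, e2]
          constructor
          · intro h11
            rw [Nat.dvd_one.1 h11]
            exact one_dvd _
          · intro h11
            rcases (Nat.dvd_prime hp1).1 h11 with h12 | h12
            · rw [h12]
            · omega
  exact isWCS_congr key (fun i h1 h2 => (s.seq_eq h1 h2).symm)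

/-- Every derived sequence is weakly consecutive. -/
theorem Derives.isWCS (hk : 1 ≤ k) {s : Start} {l : List Rule} {f : ℕ → ℕ}
    (h : Derives k s l f) : IsWCS k f := by
  have hav : s.Available k := by
    induction h with
    | start h => exact h
    | step r _ _ ih => exact ih
  induction h with
  | start h => exact isWCS_start hk h
  | @step l f r h hr ih =>
    cases r with
    | reversal => exact ih.rev
    | power p c => exact isWCS_power ih hr.1 hr.2.1 hr.2.2.1 hr.2.2.2
    | twin q =>
      obtain ⟨a1, a2, a3, a4, a5, a6⟩ := hr
      subst a1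
      obtain ⟨p, hp, hp2, hp1, hkp⟩ := hav
      have h4 : (k + 1) / 2 = p := by omega
      have hp3 : 3 ≤ p := by
        have h5 := hp.two_le
        have h6 : p ≠ 2 := by
          rintro rfl
          norm_num at hp2
        omega
      have hqp : q ≠ p + 2 := by
        rintro rfl
        have h5 : p ≠ 3 := by
          rintro rfl
          omega
        exact three_primes (by omega) hp a2 a3
      have hqo : q ≠ p + 1 := by
        rintro rfl
        rcases hp.eq_two_or_odd with h5 | h5
        · omega
        · rcases a2.eq_two_or_odd with h6 | h6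
          · omega
          · omega
      have s1 : Start.sophie.seq k (q - 2) = q := by
        show Equiv.swap ((k + 1) / 2) ((k + 1) / 2 + 2)
          (if q - 2 + 2 ≤ k then q - 2 + 2 else k + 1 - (q - 2)) = q
        rw [if_pos (by omega), h4]
        have : q - 2 + 2 = q := by omega
        rw [this]
        exact Equiv.swap_apply_of_ne_of_ne (by omega) hqp
      have s2 : Start.sophie.seq k q = q + 2 := by
        show Equiv.swap ((k + 1) / 2) ((k + 1) / 2 + 2)
          (if q + 2 ≤ k then q + 2 else k + 1 - q) = q + 2
        rw [if_pos (by omega), h4]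
        exact Equiv.swap_apply_of_ne_of_ne (by omega) (by omega)
      have f1 : f (q - 2) = q := by
        rw [a6 (q - 2) (by omega) (by omega) (Or.inl s1), s1]
      have f2 : f q = q + 2 := by
        rw [a6 q (by omega) (by omega) (Or.inr s2), s2]
      show IsWCS k (fun i => Equiv.swap q (q + 2) (f i))
      apply isWCS_swap ih ⟨by omega, by omega⟩ ⟨by omega, a4⟩
      intro m hm0 hm i hi1 hi2 j hj1 hj2 h5 h6
      have hb := ih.bounds hi1 hi2
      have hb2 : 1 ≤ Equiv.swap q (q + 2) (f i) ∧ Equiv.swap q (q + 2) (f i) ≤ k :=
        sws_Icc (E := [(q, q + 2)]) (by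
          simp only [List.mem_singleton, forall_eq]
          omega) hb.1 hb.2
      have hm1 : m ≠ 1 := by
        rintro rfl
        exact hm ⟨fun _ => one_dvd _, fun _ => one_dvd _⟩
      have hmq : m = q ∨ m = q + 2 := by
        by_cases h7 : m ∣ q
        · rcases (Nat.dvd_prime a2).1 h7 with h8 | h8
          · exact (hm1 h8).elim
          · exact Or.inl h8
        · by_cases h8 : m ∣ q + 2
          · rcases (Nat.dvd_prime a3).1 h8 with h9 | h9
            · exact (hm1 h9).elim
            · exact Or.inr h9
          · exact (hm ⟨fun h9 => (h7 h9).elim, fun h9 => (h8 h9).elim⟩).elim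
      rcases hmq with rfl | rfl
      · have h7 := eq_of_dvd_lt h5 (by omega) (by omega)
        have h8 : f i = f m := by
          rw [f2]
          apply (Equiv.swap m (m + 2)).injective
          rw [h7, Equiv.swap_apply_right]
        have h9 : i = m := ih.1.injOn ⟨hi1, hi2⟩ ⟨by omega, by omega⟩ h8
        exact eq_of_cong h6 (by omega) (by omega)
      · have h7 := eq_of_dvd_lt h5 (by omega) (by omega)
        have h8 : f i = f (q - 2) := by
          rw [f1]
          apply (Equiv.swap q (q + 2)).injective
          rw [h7, Equiv.swap_apply_left]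
        have h9 : i = q - 2 := ih.1.injOn ⟨hi1, hi2⟩ ⟨by omega, by omega⟩ h8
        exact eq_of_cong h6 (by omega) (by omega)

end Pool.Agent.Q58.WCS
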