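import Mathlib
import Pool.Agent.Q58.WCS.Exist

/-!
# Weakly consecutive sequences: uniqueness of reduced derivations
-/

set_option autoImplicit false

namespace Pool.Agent.Q58.WCS

open Pool.Agent.Results.MP_a4c3d5_co.SmallTerms

variable {k : ℕ}

/-- The pairs of the swaps in a derivation. -/
def LP (k : ℕ) (s : Start) (e : ℕ × ℕ) : Prop :=
  PP k e ∨ (s = .sophie ∧ (k + 1) / 2 < e.1 ∧ TP k e)

lemma Derives.available {s : Start} {l : List Rule} {f : ℕ → ℕ} (h : Derives k s l f) :
    s.Available k := by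
  induction h with
  | start h => exact h
  | step r _ _ ih => exact ih

lemma inv (hk : 12 ≤ k) {s : Start} {l : List Rule} {f : ℕ → ℕ} (h : Derives k s l f) :
    (∀ e ∈ l.filterMap Rule.pair, LP k s e) ∧ ∀ i, 1 ≤ i → i ≤ k →
      f i = sws (l.filterMap Rule.pair)
        (s.seq k (if (l.count .reversal) % 2 = 0 then i else k + 1 - i)) := by
  induction h with
  | start _ =>
    refine ⟨by simp, ?_⟩
    intro i _ _
    simp [sws]
  | @step l f r h hr ih =>
    obtain ⟨ih1, ih2⟩ := ih
    cases r with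
    | twin q =>
      obtain ⟨a1, a2, a3, a4, a5, -⟩ := hr
      have hav := h.available
      rw [a1] at hav
      obtain ⟨P, b1, b2, b3, b4⟩ := hav
      have hq : q + 2 < k := by
        rcases Nat.lt_or_ge (q + 2) k with h1 | h1
        · exact h1
        · exfalso
          have h2 : q + 2 = k := by omega
          have h3 := sophie_mod hk b4 b1 b2
          rw [h2] at a3
          have := (Nat.prime_dvd_prime_iff_eq Nat.prime_three a3).1 (Nat.dvd_of_mod_eq_zero h3)
          omega
      constructor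
      · intro e he
        have he' : e ∈ (q, q + 2) :: l.filterMap Rule.pair := he
        rcases List.mem_cons.1 he' with rfl | he'
        · exact Or.inr ⟨a1, a5, q, a2, a3, by omega, hq, rfl⟩
        · exact ih1 e he'
      · intro i hi1 hi2
        have hc : (Rule.twin q :: l).count .reversal = l.count .reversal :=
          List.count_cons_of_ne (by simp)
        rw [hc]
        show Equiv.swap q (q + 2) (f i) = Equiv.swap q (q + 2) (sws (l.filterMap Rule.pair) _)
        rw [ih2 i hi1 hi2]
    | power p c =>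
      constructor
      · intro e he
        have he' : e ∈ (p ^ (c - 1), p ^ c) :: l.filterMap Rule.pair := he
        rcases List.mem_cons.1 he' with rfl | he'
        · exact Or.inl ⟨p, c, hr.1, hr.2.1, hr.2.2.1, hr.2.2.2, rfl⟩
        · exact ih1 e he'
      · intro i hi1 hi2
        have hc : (Rule.power p c :: l).count .reversal = l.count .reversal :=
          List.count_cons_of_ne (by simp)
        rw [hc]
        show Equiv.swap (p ^ (c - 1)) (p ^ c) (f i) =
          Equiv.swap (p ^ (c - 1)) (p ^ c) (sws (l.filterMap Rule.pair) _)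
        rw [ih2 i hi1 hi2]
    | reversal =>
      constructor
      · exact ih1
      · intro i hi1 hi2
        rw [List.count_cons_self]
        show f (k + 1 - i) = sws (l.filterMap Rule.pair) _
        rw [ih2 _ (by omega) (by omega)]
        congr 2
        split_ifs <;> omega

lemma LP.gp {s : Start} {e : ℕ × ℕ} (h : LP k s e) : GP k e := by
  rcases h with h | ⟨-, -, h⟩
  · exact Or.inl h
  · exact Or.inr (Or.inl h)

lemma ex_tp (hk : 12 ≤ k) {s : Start} (hs : s.Available k) :
    ∀ e ∈ s.ex k, (TP k e ∧ e.1 ≤ (k + 1) / 2) ∨ XP k e := by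
  intro e he
  cases s with
  | consecutive => simp [Start.ex] at he
  | inversion => simp [Start.ex] at he
  | twiceTwin =>
    obtain ⟨p, h1, h2, h3⟩ := hs
    have h4 : k / 2 = p := by omega
    simp only [Start.ex, List.mem_cons, List.not_mem_nil, or_false] at he
    rw [h4] at he
    rcases he with rfl | rfl
    · exact Or.inl ⟨⟨p, h1, h2, by omega, by omega, rfl⟩, by simp only; omega⟩
    · exact Or.inr ⟨p, h1, h2, h4, rfl⟩
  | sophie =>
    obtain ⟨p, h1, h2, h3, h4⟩ := hs
    have h5 : (k + 1) / 2 = p := by omega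
    simp only [Start.ex, List.mem_cons, List.not_mem_nil, or_false] at he
    rw [h5] at he
    subst he
    exact Or.inl ⟨⟨p, h1, h2, by omega, by omega, rfl⟩, by simp only; omega⟩
  | twiceTwinInversion =>
    obtain ⟨p, h1, h2, -, h3⟩ := hs
    have h4 : k / 2 = p := by omega
    simp only [Start.ex, List.mem_cons, List.not_mem_nil, or_false] at he
    rw [h4] at he
    rcases he with rfl | rfl
    · exact Or.inl ⟨⟨p, h1, h2, by omega, by omega, rfl⟩, by simp only; omega⟩
    · exact Or.inr ⟨p, h1, h2, h4, rfl⟩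

lemma ex_nodup (hk : 12 ≤ k) (s : Start) : (s.ex k).Nodup := by
  cases s <;> simp [Start.ex] <;> omega

lemma full_nodup (hk : 12 ≤ k) {s : Start} (hs : s.Available k) {L : List (ℕ × ℕ)}
    (hL : ∀ e ∈ L, LP k s e) (hn : L.Nodup) : (L ++ s.ex k).Nodup := by
  rw [List.nodup_append]
  refine ⟨hn, ex_nodup hk s, ?_⟩
  intro e he e' he' hee
  subst hee
  rcases hL e he with h1 | ⟨-, h1, h2⟩
  · rcases ex_tp hk hs e he' with h3 | h3
    · exact (PP_TP hk h1 h3.1).1 rfl
    · exact (PP_XP hk h1 h3).1 rfl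
  · rcases ex_tp hk hs e he' with h3 | h3
    · omega
    · exact (TP_XP hk h2 h3).1 rfl

lemma full_gp (hk : 12 ≤ k) {s : Start} (hs : s.Available k) {L : List (ℕ × ℕ)}
    (hL : ∀ e ∈ L, LP k s e) : ∀ e ∈ L ++ s.ex k, GP k e := by
  intro e he
  rcases List.mem_append.1 he with he | he
  · exact (hL e he).gp
  · rcases ex_tp hk hs e he with h | h
    · exact Or.inr (Or.inl h.1)
    · exact Or.inr (Or.inr h)

lemma GP.ne6 (hk : 12 ≤ k) {e : ℕ × ℕ} (h : GP k e) :
    (6 ≠ e.1 ∧ 6 ≠ e.2) ∧ (10 ≠ e.1 ∧ 10 ≠ e.2) := by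
  rcases h with ⟨p, c, hp, hc, h1, h2, rfl⟩ | ⟨q, hq, hq2, h3, h4, rfl⟩ | ⟨q, hq, hq2, h3, rfl⟩
  · have h6 : ∀ n, 6 ≠ p ^ n := by
      intro n h
      have e1 : 2 ∣ p ^ n := by rw [← h]; norm_num
      have e2 : 3 ∣ p ^ n := by rw [← h]; norm_num
      have e3 := (Nat.prime_dvd_prime_iff_eq Nat.prime_two hp).1 (Nat.prime_two.dvd_of_dvd_pow e1)
      have e4 := (Nat.prime_dvd_prime_iff_eq Nat.prime_three hp).1
        (Nat.prime_three.dvd_of_dvd_pow e2)
      omega
    have h10 : ∀ n, 10 ≠ p ^ n := by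
      intro n h
      have e1 : 2 ∣ p ^ n := by rw [← h]; norm_num
      have e2 : 5 ∣ p ^ n := by rw [← h]; norm_num
      have e3 := (Nat.prime_dvd_prime_iff_eq Nat.prime_two hp).1 (Nat.prime_two.dvd_of_dvd_pow e1)
      have e4 := (Nat.prime_dvd_prime_iff_eq Nat.prime_five hp).1
        (Nat.prime_five.dvd_of_dvd_pow e2)
      omega
    exact ⟨⟨h6 _, h6 _⟩, h10 _, h10 _⟩
  · have hqo : q % 2 = 1 := by
      rcases hq.eq_two_or_odd with h4 | h4
      · omega
      · exact h4
    simp only
    omega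
  · have hqo : q % 2 = 1 := by
      rcases hq.eq_two_or_odd with h4 | h4
      · omega
      · exact h4
    simp only
    omega

lemma sub_of_eq (hk : 12 ≤ k) {E E' : List (ℕ × ℕ)} (hE : E.Nodup) (hE' : E'.Nodup)
    (hG : ∀ e ∈ E, GP k e) (hG' : ∀ e ∈ E', GP k e)
    (h : ∀ b, 1 ≤ b → b ≤ k → sws E b = sws E' b) : ∀ e ∈ E, e ∈ E' := by
  intro e he
  have hD := GP.pairwise hk hE hG
  have hD' := GP.pairwise hk hE' hG'
  have h1 := (hG e he).bounds hk
  have h2 := (sws_mem hD he).1
  rw [h e.1 (by omega) (by omega)] at h2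
  by_contra hcon
  have h3 : sws E' e.1 = e.1 := by
    apply sws_notin
    intro e' he'
    have h4 := (hG' e' he').bounds hk
    constructor
    · intro h5
      rw [h5, (sws_mem hD' he').1] at h2
      apply hcon
      have : e = e' := Prod.ext h5 h2.symm
      rw [this]
      exact he'
    · intro h5
      rw [h5, (sws_mem hD' he').2] at h2
      omega
  omega

lemma off_le (s : Start) : s.off ≤ 2 := by
  cases s <;> simp [Start.off]

theorem unique (hk : 12 ≤ k) {s s' : Start} {l l' : List Rule} {f f' : ℕ → ℕ}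
    (h : Derives k s l f) (h' : Derives k s' l' f') (hr : Reduced l) (hr' : Reduced l')
    (heq : ∀ i, 1 ≤ i → i ≤ k → f i = f' i) :
    s = s' ∧ (∀ e, e ∈ l.filterMap Rule.pair ↔ e ∈ l'.filterMap Rule.pair) ∧
      (Rule.reversal ∈ l ↔ Rule.reversal ∈ l') := by
  obtain ⟨hL, hf⟩ := inv hk h
  obtain ⟨hL', hf'⟩ := inv hk h'
  have hN := full_nodup hk h.available hL hr.1
  have hN' := full_nodup hk h'.available hL' hr'.1
  have hG := full_gp hk h.available hL
  have hG' := full_gp hk h'.available hL'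
  have hc := hr.2
  have hc' := hr'.2
  have ht := off_le s
  have ht' := off_le s'
  obtain ⟨c, hcd⟩ : ∃ c, c = l.count .reversal := ⟨_, rfl⟩
  obtain ⟨c', hcd'⟩ : ∃ c', c' = l'.count .reversal := ⟨_, rfl⟩
  rw [← hcd] at hf hc
  rw [← hcd'] at hf' hc'
  obtain ⟨E, hE⟩ : ∃ E, E = l.filterMap Rule.pair ++ s.ex k := ⟨_, rfl⟩
  obtain ⟨E', hE'⟩ : ∃ E', E' = l'.filterMap Rule.pair ++ s'.ex k := ⟨_, rfl⟩
  obtain ⟨t, htd⟩ : ∃ t, t = s.off := ⟨_, rfl⟩
  obtain ⟨t', htd'⟩ : ∃ t', t' = s'.off := ⟨_, rfl⟩
  have hF : ∀ i, 1 ≤ i → i ≤ k → f i = sws E (base t k (if c % 2 = 0 then i else k + 1 - i)) := by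
    intro i hi1 hi2
    rw [hf i hi1 hi2, s.seq_eq (by split_ifs <;> omega) (by split_ifs <;> omega), hE, sws_append,
      htd]
  have hF' : ∀ i, 1 ≤ i → i ≤ k →
      f' i = sws E' (base t' k (if c' % 2 = 0 then i else k + 1 - i)) := by
    intro i hi1 hi2
    rw [hf' i hi1 hi2, s'.seq_eq (by split_ifs <;> omega) (by split_ifs <;> omega), hE', sws_append,
      htd']
  rw [← hE] at hN hG
  rw [← hE'] at hN' hG'
  rw [← htd] at ht
  rw [← htd'] at ht'
  have fix : ∀ b, (b = 6 ∨ b = 10) → sws E b = b := by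
    intro b hb
    apply sws_notin
    intro e he
    have h1 := (hG e he).ne6 hk
    rcases hb with rfl | rfl
    · exact h1.1
    · exact h1.2
  have fix' : ∀ b, (b = 6 ∨ b = 10) → sws E' b = b := by
    intro b hb
    apply sws_notin
    intro e he
    have h1 := (hG' e he).ne6 hk
    rcases hb with rfl | rfl
    · exact h1.1
    · exact h1.2
  have hpos : ∀ b, (b = 6 ∨ b = 10) →
      (if c' % 2 = 0 then (if c % 2 = 0 then b - t else k + 1 - (b - t)) else
        k + 1 - (if c % 2 = 0 then b - t else k + 1 - (b - t))) + t' = b := by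
    intro b hb
    obtain ⟨i, hi⟩ : ∃ i, i = if c % 2 = 0 then b - t else k + 1 - (b - t) := ⟨_, rfl⟩
    have hi1 : 1 ≤ i := by
      rw [hi]
      split_ifs <;> omega
    have hi2 : i ≤ k := by
      rw [hi]
      split_ifs <;> omega
    have h1 : (if c % 2 = 0 then i else k + 1 - i) = b - t := by
      rw [hi]
      split_ifs <;> omega
    have h2 : base t k (b - t) = b := by
      unfold base
      rw [if_pos (by omega)]
      omega
    have h3 : f i = b := by
      rw [hF i hi1 hi2, h1, h2, fix b hb]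
    rw [heq i hi1 hi2, hF' i hi1 hi2] at h3
    have h4 := sws_inj E' (h3.trans (fix' b hb).symm)
    rw [← hi]
    unfold base at h4
    split_ifs at h4 ⊢ <;> omega
  have p6 := hpos 6 (Or.inl rfl)
  have p10 := hpos 10 (Or.inr rfl)
  have htt : t = t' ∧ c = c' := by
    have hc01 : c = 0 ∨ c = 1 := by omega
    have hc01' : c' = 0 ∨ c' = 1 := by omega
    rcases hc01 with rfl | rfl <;> rcases hc01' with rfl | rfl <;> norm_num at p6 p10 <;> omega
  obtain ⟨htt, hcc⟩ := htt
  have hEE : ∀ b, 1 ≤ b → b ≤ k → sws E b = sws E' b := by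
    intro b hb1 hb2
    obtain ⟨j, hj1, hj2, rfl⟩ := base_surj (t := t) (by omega) hb1 hb2
    obtain ⟨i, hi⟩ : ∃ i, i = if c % 2 = 0 then j else k + 1 - j := ⟨_, rfl⟩
    have hi1 : 1 ≤ i := by
      rw [hi]
      split_ifs <;> omega
    have hi2 : i ≤ k := by
      rw [hi]
      split_ifs <;> omega
    have h1 : (if c % 2 = 0 then i else k + 1 - i) = j := by
      rw [hi]
      split_ifs <;> omega
    have h2 := heq i hi1 hi2
    rw [hF i hi1 hi2, hF' i hi1 hi2, ← hcc, ← htt, h1] at h2
    exact h2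
  have hsub := sub_of_eq hk hN hN' hG hG' hEE
  have hsub' := sub_of_eq hk hN' hN hG' hG (fun b hb1 hb2 => (hEE b hb1 hb2).symm)
  -- the starting sequences agree
  have hXP : ∀ e ∈ l.filterMap Rule.pair, ¬ XP k e := by
    intro e he hX
    rcases hL e he with h1 | h1
    · exact (PP_XP hk h1 hX).1 rfl
    · exact (TP_XP hk h1.2.2 hX).1 rfl
  have hXP' : ∀ e ∈ l'.filterMap Rule.pair, ¬ XP k e := by
    intro e he hX
    rcases hL' e he with h1 | h1
    · exact (PP_XP hk h1 hX).1 rfl
    · exact (TP_XP hk h1.2.2 hX).1 rfl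
  have hxx : ((2, 2 * (k / 2)) ∈ s.ex k ↔ (2, 2 * (k / 2)) ∈ s'.ex k) := by
    constructor
    · intro h1
      have h2 : XP k (2, 2 * (k / 2)) := by
        rcases ex_tp hk h.available _ h1 with ⟨⟨q, -, -, h3, -, h4⟩, -⟩ | h2
        · have : 2 = q := (Prod.mk.inj h4).1
          omega
        · exact h2
      have h3 := hsub _ (by rw [hE]; exact List.mem_append_right _ h1)
      rw [hE'] at h3
      rcases List.mem_append.1 h3 with h4 | h4
      · exact (hXP' _ h4 h2).elim
      · exact h4
    · intro h1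
      have h2 : XP k (2, 2 * (k / 2)) := by
        rcases ex_tp hk h'.available _ h1 with ⟨⟨q, -, -, h3, -, h4⟩, -⟩ | h2
        · have : 2 = q := (Prod.mk.inj h4).1
          omega
        · exact h2
      have h3 := hsub' _ (by rw [hE']; exact List.mem_append_right _ h1)
      rw [hE] at h3
      rcases List.mem_append.1 h3 with h4 | h4
      · exact (hXP _ h4 h2).elim
      · exact h4
  have hss : s = s' := by
    have hoff : s.off = s'.off := by rw [← htd, ← htd', htt]
    cases s <;> cases s' <;> first | rfl | (simp [Start.off] at hoff; done) |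
      simp [Start.ex] at hxx
  subst hss
  refine ⟨rfl, ?_, ?_⟩
  · have hdis : ∀ e, e ∈ l.filterMap Rule.pair → e ∉ s.ex k := by
      intro e he1 he2
      rw [hE, List.nodup_append] at hN
      exact hN.2.2 e he1 e he2 rfl
    have hdis' : ∀ e, e ∈ l'.filterMap Rule.pair → e ∉ s.ex k := by
      intro e he1 he2
      rw [hE', List.nodup_append] at hN'
      exact hN'.2.2 e he1 e he2 rfl
    intro e
    constructor
    · intro he
      have h1 := hsub e (by rw [hE]; exact List.mem_append_left _ he)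
      rw [hE'] at h1
      rcases List.mem_append.1 h1 with h2 | h2
      · exact h2
      · exact (hdis e he h2).elim
    · intro he
      have h1 := hsub' e (by rw [hE']; exact List.mem_append_left _ he)
      rw [hE] at h1
      rcases List.mem_append.1 h1 with h2 | h2
      · exact h2
      · exact (hdis' e he h2).elim
  · rw [← List.count_pos_iff, ← List.count_pos_iff, ← hcd, ← hcd', hcc]

end Pool.Agent.Q58.WCS
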